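import Pool.Agent.TH839.LD.Eqv
import Pool.Agent.W355.UN.Inst

/-!
# Project LD: Dirichlet characters and the Riemann zeta function
-/

set_option autoImplicit false

open Complex Filter Topology Set DirichletCharacter
open scoped ComplexConjugate

namespace Pool.Agent.TH839.LD

open Pool.Agent.W169.HF H353.E Pool.Agent.W355.UN Pool.Agent.W355.LJ Pool.Agent.TH839.UH
  Pool.Agent.TH839.UH.EP

variable {m r : ℕ} {N : ℝ} {a : Fin m → ℂ} {α : Nat.Primes → Fin m → ℂ} {X : ℂ → ℂ}

theorem hw_of_raw {b c : ℕ → ℂ} (h : Raw m r N a b c X)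
    (hα : ∀ p j, ‖α p j‖ ≤ ((p : ℕ) : ℝ) ^ (1 / 2 : ℝ))
    (hE : ∀ s : ℂ, 1 < s.re → LSeries b s = E α s) : HW m r N a α X := by
  refine ⟨h.hm, h.hr, h.hN, h.re_ge, hα, h.entire, h.order, h.fe, ?_⟩
  obtain ⟨σ, hσ⟩ := h.eq
  refine ⟨max σ 2, fun s hs => ?_⟩
  rw [hσ s ((le_max_left _ _).trans hs), hE s (by linarith [(le_max_right σ 2).trans hs])]

lemma one_le_p (p : Nat.Primes) : (1 : ℝ) ≤ ((p : ℕ) : ℝ) ^ (1 / 2 : ℝ) :=
  Real.one_le_rpow (by exact_mod_cast p.2.one_lt.le) (by norm_num)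

lemma single_get (x : ℂ) : (fun j : Fin 1 => ([x] : List ℂ).get j) = fun _ => x := by
  funext j
  fin_cases j
  rfl

/-- the parity of a Dirichlet character, `0` or `1` -/
noncomputable def parity {q : ℕ} (χ : DirichletCharacter ℂ q) : ℂ :=
  open Classical in if χ.Even then 0 else 1

lemma parity_eq {q : ℕ} (χ : DirichletCharacter ℂ q) : parity χ = (parD χ : ℂ) := by
  unfold parity parD
  split_ifs <;> simp

lemma parity_cases {q : ℕ} (χ : DirichletCharacter ℂ q) : parity χ = 0 ∨ parity χ = 1 := by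
  unfold parity
  split_ifs
  · exact Or.inl rfl
  · exact Or.inr rfl

lemma gf_eq {q : ℕ} (χ : DirichletCharacter ℂ q) (s : ℂ) : gammaFactor χ s = Gammaℝ (s + parity χ) := by
  classical
  unfold gammaFactor parity
  split_ifs <;> simp

theorem dir_hw (q : ℕ) [NeZero q] (χ : DirichletCharacter ℂ q) (hq : 1 < q) (hχ : χ.IsPrimitive) :
    HW 1 0 q (fun _ => parity χ) (fun p _ => χ ((p : ℕ) : ZMod q))
      (fun s => (q : ℂ) ^ (s / 2) * completedLFunction χ s) := by
  obtain ⟨X, h⟩ := dir_raw q χ hq hχ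
  have h1 : Raw 1 0 q (fun _ => parity χ) (fun n => χ (n : ZMod q)) (fun n => χ (n : ZMod q)) X := by
    rw [parity_eq, ← single_get]
    exact h
  have hE : ∀ s : ℂ, 1 < s.re → LSeries (fun n => χ (n : ZMod q)) s =
      E (m := 1) (fun p _ => χ ((p : ℕ) : ZMod q)) s := by
    intro s hs
    unfold E
    simp only [Finset.univ_unique, Finset.prod_singleton]
    exact (DirichletCharacter.LSeries_eulerProduct_tprod χ hs).symm
  have h2 : HW 1 0 q (fun _ => parity χ) (fun p _ => χ ((p : ℕ) : ZMod q)) X :=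
    hw_of_raw h1 (fun p _ => (χ.norm_le_one _).trans (one_le_p p)) hE
  have hχ1 : χ ≠ 1 := by
    intro h0
    rw [h0] at hχ
    have h3 : (1 : DirichletCharacter ℂ q).conductor = q := hχ
    rw [DirichletCharacter.conductor_one] at h3
    omega
  have hq0 : (q : ℂ) ≠ 0 := by exact_mod_cast NeZero.ne q
  have hd : Differentiable ℂ fun s => (q : ℂ) ^ (s / 2) * completedLFunction χ s := by
    refine Differentiable.mul (fun s => ?_) (differentiable_completedLFunction hχ1)
    exact DifferentiableAt.const_cpow (by fun_prop) (Or.inl hq0)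
  have hXe : (fun s => (q : ℂ) ^ (s / 2) * completedLFunction χ s) = X := by
    refine Pk.uniq (G := fun s => (q : ℂ) ^ (s / 2) * completedLFunction χ s) h1.entire hd ?_
      ⟨0, fun s _ => rfl⟩
    obtain ⟨σ, hσ⟩ := h1.eq
    refine ⟨max σ 2, fun s hs => ?_⟩
    have hs1 : 1 < s.re := by linarith [(le_max_right σ 2).trans hs]
    rw [hσ s ((le_max_left _ _).trans hs), pow_zero, one_mul]
    have h3 := LFunction_eq_LSeries χ hs1
    have h4 := LFunction_eq_completed_div_gammaFactor χ s (Or.inr (by omega))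
    rw [gf_eq] at h4
    have h5 : Gammaℝ (s + parity χ) ≠ 0 := by
      apply Complex.Gammaℝ_ne_zero_of_re_pos
      rcases parity_cases χ with h6 | h6 <;> rw [h6] <;> simp <;> linarith
    have h6 : completedLFunction χ s = Gammaℝ (s + parity χ) * LFunction χ s := by
      rw [h4]
      field_simp
    rw [h6, h3]
    simp only [Finset.univ_unique, Finset.prod_singleton, ofReal_natCast]
    ring
  rw [hXe]
  exact h2

lemma dir_L (q : ℕ) [NeZero q] (χ : DirichletCharacter ℂ q) (hq : 1 < q) (s : ℂ) :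
    (q : ℂ) ^ (s / 2) * completedLFunction χ s / gm 0 q (fun _ : Fin 1 => parity χ) s =
      LFunction χ s := by
  have hq0 : (q : ℂ) ≠ 0 := by exact_mod_cast NeZero.ne q
  have h4 := LFunction_eq_completed_div_gammaFactor χ s (Or.inr (by omega))
  rw [gf_eq] at h4
  unfold gm
  simp only [Finset.univ_unique, Finset.prod_singleton, ofReal_natCast, pow_zero, one_mul]
  have h5 : (q : ℂ) ^ (s / 2) ≠ 0 := by
    rw [Ne, Complex.cpow_eq_zero_iff]
    exact fun h => hq0 h.1
  rw [mul_div_mul_left _ _ h5, h4]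

theorem zeta_hw : HW 1 1 1 (fun _ => 0) (fun _ _ => 1)
    (fun s => s * (s - 1) * completedRiemannZeta₀ s + 1) := by
  have h := zeta_raw
  have h1 : Raw 1 1 1 (fun _ => 0) (fun _ => 1) (fun _ => 1)
      (fun s => s * (s - 1) * completedRiemannZeta₀ s + 1) := by
    rw [← single_get]
    exact h
  refine hw_of_raw h1 (fun p _ => by rw [norm_one]; exact one_le_p p) fun s hs => ?_
  have e : LSeries (fun _ => (1 : ℂ)) s = riemannZeta s := LSeries_one_eq_riemannZeta hs
  rw [e]
  unfold E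
  simp only [Finset.univ_unique, Finset.prod_singleton, one_mul]
  exact (riemannZeta_eulerProduct_tprod hs).symm

lemma zeta_L {s : ℂ} (h0 : s ≠ 0) (h1 : s ≠ 1) :
    (s * (s - 1) * completedRiemannZeta₀ s + 1) / gm 1 1 (fun _ : Fin 1 => 0) s = riemannZeta s := by
  have h2 : s - 1 ≠ 0 := sub_ne_zero.2 h1
  have h3 : (1 : ℂ) - s ≠ 0 := sub_ne_zero.2 h1.symm
  rw [riemannZeta_def_of_ne_zero h0, completedRiemannZeta_eq]
  unfold gm
  simp only [Finset.univ_unique, Finset.prod_singleton, pow_one, add_zero, ofReal_one, one_cpow,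
    one_mul]
  have e : s * (s - 1) * completedRiemannZeta₀ s + 1 =
      s * (s - 1) * (completedRiemannZeta₀ s - 1 / s - 1 / (1 - s)) := by
    field_simp
    ring
  rw [e, mul_div_mul_left _ _ (mul_ne_zero h0 h2)]

lemma cd_one (N : ℝ) (x : ℂ) (T : ℝ) : cd N (fun _ : Fin 1 => x) T = N * (1 + ‖(T : ℂ) * I + x‖) := by
  unfold cd
  simp

end Pool.Agent.TH839.LD
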