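import Pool.Agent.TH839.LD.Fam

/-!
# Project LD: the Lindelof hypothesis for a family and zeros of derivatives
-/

set_option autoImplicit false

open Complex Filter Topology Set
open scoped ComplexConjugate

namespace Pool.Agent.TH839.LD

open Pool.Agent.W169.HF H353.E Pool.Agent.W355.UN Pool.Agent.TH839.UH Pool.Agent.TH839.UH.EP
open Pool.Agent.TH839.UH.NF (B0 B0_nonneg)

variable {m r : ℕ} {N : ℝ} {a : Fin m → ℂ} {α : Nat.Primes → Fin m → ℂ} {X : ℂ → ℂ}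

/-- a trivial bound -/
theorem triv (m : ℕ) (c : ℝ) (hc0 : 0 < c) : ∃ K : ℝ, 0 < K ∧ ∀ (r : ℕ) (N : ℝ) (a : Fin m → ℂ)
    (α : Nat.Primes → Fin m → ℂ) (X : ℂ → ℂ), HW m r N a α X → (∀ j, -1 / 2 + c ≤ (a j).re) →
      ∀ T : ℝ, ‖X (1 / 2 + (T : ℂ) * I) / gm r N a (1 / 2 + (T : ℂ) * I)‖ ≤
        K * Real.exp (3 / 2 * Real.log (cd N a T)) := by
  obtain ⟨K, hK, HK⟩ := cmp m c hc0
  refine ⟨K * Real.exp (Kn m (4 * B0 + 2) 0 * (10 + 0 ^ 2)), by positivity, ?_⟩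
  intro r N a α X h ha T
  obtain ⟨hk, -⟩ := HK r N a α X h ha T _ rfl
  have hgp : 0 < ‖gm r N a (1 / 2 + (T : ℂ) * I)‖ := norm_pos_iff.2 (gm_ne h hc0 ha T)
  have h1 := near h.ul le_rfl T (R := 0) (u := 0) (by simp) (by simp)
  rw [add_zero] at h1
  obtain ⟨g, hg⟩ : ∃ g : ℝ, g = ‖gm r N a (1 / 2 + (T : ℂ) * I)‖ := ⟨_, rfl⟩
  have hk' : ‖X (7 / 2 + (T : ℂ) * I)‖ * Real.exp (-(3 * hc N (fun j => -a j) T)) ≤ K * g := by
    rw [hg]
    exact hk
  rw [norm_div, ← hg, div_le_iff₀ (by rw [hg]; exact hgp)]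
  have e1 : ‖X (7 / 2 + (T : ℂ) * I)‖ = ‖X (7 / 2 + (T : ℂ) * I)‖ *
      Real.exp (-(3 * hc N (fun j => -a j) T)) * Real.exp (3 * hc N (fun j => -a j) T) := by
    rw [mul_assoc, ← Real.exp_add, neg_add_cancel, Real.exp_zero, mul_one]
  have e2 : 3 * hc N (fun j => -a j) T = 3 / 2 * Real.log (cd N a T) := by
    rw [hc_cd]
    ring
  calc _ ≤ _ := h1
    _ ≤ (K * g * Real.exp (3 * hc N (fun j => -a j) T)) *
        Real.exp (Kn m (4 * B0 + 2) 0 * (10 + 0 ^ 2)) := by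
        refine mul_le_mul_of_nonneg_right ?_ (Real.exp_pos _).le
        rw [e1]
        exact mul_le_mul_of_nonneg_right hk' (Real.exp_pos _).le
    _ = _ := by
        rw [e2]
        ring

lemma log_small {m W : ℝ} (hm : 0 ≤ m) (hW : 0 ≤ W) : ∃ C : ℝ, ∀ l : ℝ, 0 ≤ l →
    m * Real.log (1 + W * l) ≤ l / 4 + C := by
  obtain ⟨η, hη⟩ : ∃ η : ℝ, η = 1 / (4 * (m * W + 1)) := ⟨_, rfl⟩
  have hmW : 0 ≤ m * W := by positivity
  have hη0 : 0 < η := by rw [hη]; positivity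
  have hη1 : m * W * η ≤ 1 / 4 := by
    rw [hη, mul_one_div, div_le_iff₀ (by positivity)]
    linarith
  refine ⟨m * (η - Real.log η), fun l hl => ?_⟩
  have hWl : 0 ≤ W * l := by positivity
  have h1 := Real.log_le_sub_one_of_pos (show 0 < η * (1 + W * l) by positivity)
  rw [Real.log_mul hη0.ne' (by positivity)] at h1
  have h2 : Real.log (1 + W * l) ≤ η + η * (W * l) - Real.log η := by linarith
  have h3 := mul_le_mul_of_nonneg_left h2 hm
  have h4 : m * W * η * l ≤ 1 / 4 * l := mul_le_mul_of_nonneg_right hη1 hl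
  have e : m * (η + η * (W * l) - Real.log η) = m * (η - Real.log η) + m * W * η * l := by ring
  linarith

variable {ι : Type}

/-- the Lindelof hypothesis for a family -/
def Lind (L : ι → ℂ → ℂ) (C : ι → ℝ → ℝ) : Prop := ∀ ε : ℝ, 0 < ε → ∃ K : ℝ, ∀ (i : ι) (T : ℝ),
  ‖L i (1 / 2 + (T : ℂ) * I)‖ ≤ K * C i T ^ ε

/-- few zeros of all derivatives -/
def Uni (Λ : ι → ℂ → ℂ) (C : ι → ℝ → ℝ) : Prop := ∀ δ : ℝ, 0 < δ → ∀ ε : ℝ, 0 < ε → ∃ X0 : ℝ,
  ∀ (i : ι) (T : ℝ), X0 ≤ C i T → ∀ n : ℕ, Few (Λ i) n δ T (ε * Real.log (C i T))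

/-- few zeros of one derivative, whose order may depend on the place -/
def Som (Λ : ι → ℂ → ℂ) (C : ι → ℝ → ℝ) : Prop := ∃ ν : ι → ℝ → ℕ,
  (∀ ε : ℝ, 0 < ε → ∃ X0 : ℝ, ∀ (i : ι) (T : ℝ), X0 ≤ C i T →
    ν i T * Real.log (Real.log (C i T)) ≤ ε * Real.log (C i T)) ∧
  ∀ δ : ℝ, 0 < δ → ∀ ε : ℝ, 0 < ε → ∀ W : ℝ, ∃ X0 : ℝ, ∀ (i : ι) (T : ℝ), X0 ≤ C i T →
    ∀ T' : ℝ, |T' - T| ≤ W * Real.log (C i T) → Few (Λ i) (ν i T) δ T' (ε * Real.log (C i T))

theorem fam3 (m : ℕ) (A c : ℝ) (hA : 0 ≤ A) (hc0 : 0 < c) (r : ι → ℕ) (N : ι → ℝ)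
    (a : ι → Fin m → ℂ) (α : ι → Nat.Primes → Fin m → ℂ) (X : ι → ℂ → ℂ)
    (h : ∀ i, HW m (r i) (N i) (a i) (α i) (X i)) (hAa : ∀ i j, ‖a i j‖ ≤ A)
    (ha : ∀ i j, -1 / 2 + c ≤ (a i j).re) :
    (Lind (fun i s => X i s / gm (r i) (N i) (a i) s) (fun i => cd (N i) (a i)) ↔
      Uni X fun i => cd (N i) (a i)) ∧
    (Lind (fun i s => X i s / gm (r i) (N i) (a i) s) (fun i => cd (N i) (a i)) ↔
      Som X fun i => cd (N i) (a i)) := by
  have hm0 : (0 : ℝ) ≤ m := Nat.cast_nonneg m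
  have h1 : ∀ i T, 1 ≤ cd (N i) (a i) T := fun i T => one_le_cd (h i).hN _ T
  have hev : ∀ C k : ℝ, 0 < k → ∃ x0 : ℝ, ∀ x : ℝ, x0 ≤ x → C ≤ k * Real.log x := fun C k hk =>
    eventually_atTop.1 ((Real.tendsto_log_atTop.const_mul_atTop hk).eventually_ge_atTop C)
  have LU : Lind (fun i s => X i s / gm (r i) (N i) (a i) s) (fun i => cd (N i) (a i)) →
      Uni X fun i => cd (N i) (a i) := by
    intro HL δ hδ ε hε
    obtain ⟨κ, W', X0, hκ, H⟩ := fam2 m c ε δ hc0 hε hδ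
    obtain ⟨W, hW⟩ : ∃ W : ℝ, W = max W' 0 := ⟨_, rfl⟩
    have hWW : W' ≤ W := by rw [hW]; exact le_max_left _ _
    have hW0 : 0 ≤ W := by rw [hW]; exact le_max_right _ _
    obtain ⟨K, HK⟩ := HL (κ / 4) (by positivity)
    obtain ⟨K', hK'⟩ : ∃ K' : ℝ, K' = max K 1 := ⟨_, rfl⟩
    have hKK : K ≤ K' := by rw [hK']; exact le_max_left _ _
    have hK1 : 1 ≤ K' := by rw [hK']; exact le_max_right _ _
    obtain ⟨x0, hx0⟩ := hev (Real.log K' + κ / 4 * (m * Real.log (1 + W))) (κ / 2) (by positivity)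
    refine ⟨max X0 x0, fun i T hT n => ?_⟩
    refine H (r i) (N i) (a i) (α i) (X i) (h i) (ha i) T ((le_max_left _ _).trans hT)
      (fun T' hT' => ?_) n
    have h3 := HK i T'
    refine h3.trans ?_
    have hcp : 0 < cd (N i) (a i) T := lt_of_lt_of_le one_pos (h1 i T)
    have hcp' : 0 < cd (N i) (a i) T' := lt_of_lt_of_le one_pos (h1 i T')
    have h4 := (cd_shift (h i).hN (a i) (T := T) (T1 := T') (R := W) (hT'.trans hWW)).1
    have h5 := hx0 _ ((le_max_right _ _).trans hT)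
    have h6 : 0 ≤ Real.log (cd (N i) (a i) T) := Real.log_nonneg (h1 i T)
    calc K * cd (N i) (a i) T' ^ (κ / 4) ≤ K' * cd (N i) (a i) T' ^ (κ / 4) := by gcongr
      _ = Real.exp (Real.log K' + κ / 4 * Real.log (cd (N i) (a i) T')) := by
          rw [Real.exp_add, Real.exp_log (by linarith), Real.rpow_def_of_pos hcp', mul_comm (κ / 4)]
      _ ≤ Real.exp (κ * Real.log (cd (N i) (a i) T)) := by
          apply Real.exp_le_exp.2
          have h7 := mul_le_mul_of_nonneg_left h4 (by positivity : 0 ≤ κ / 4)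
          have h8 : 0 ≤ κ * Real.log (cd (N i) (a i) T) := by positivity
          linarith
      _ = _ := by rw [Real.rpow_def_of_pos hcp, mul_comm]
  have US : (Uni X fun i => cd (N i) (a i)) → Som X fun i => cd (N i) (a i) := by
    intro HU
    refine ⟨fun _ _ => 0, fun ε hε => ⟨0, fun i T _ => ?_⟩, fun δ hδ ε hε W' => ?_⟩
    · have h6 : 0 ≤ Real.log (cd (N i) (a i) T) := Real.log_nonneg (h1 i T)
      simp only [Nat.cast_zero, zero_mul]
      positivity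
    · obtain ⟨X0, H⟩ := HU δ hδ (ε / 2) (by positivity)
      obtain ⟨W, hW⟩ : ∃ W : ℝ, W = max W' 0 := ⟨_, rfl⟩
      have hWW : W' ≤ W := by rw [hW]; exact le_max_left _ _
      have hW0 : 0 ≤ W := by rw [hW]; exact le_max_right _ _
      obtain ⟨C, hC⟩ := log_small hm0 hW0
      obtain ⟨x1, hx1⟩ := hev (Real.log (max X0 1) + |C|) (1 / 2) (by norm_num)
      refine ⟨x1, fun i T hT T' hT' => ?_⟩
      have h6 : 0 ≤ Real.log (cd (N i) (a i) T) := Real.log_nonneg (h1 i T)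
      have h7 : |T' - T| ≤ W * Real.log (cd (N i) (a i) T) :=
        hT'.trans (mul_le_mul_of_nonneg_right hWW h6)
      obtain ⟨s1, s2⟩ := cd_shift (h i).hN (a i) h7
      have h8 := hC _ h6
      have h9 := hx1 _ hT
      have h10 := le_abs_self C
      have hcp' : 0 < cd (N i) (a i) T' := lt_of_lt_of_le one_pos (h1 i T')
      have h11 : 0 ≤ Real.log (max X0 1) := Real.log_nonneg (le_max_right _ _)
      have h12 : X0 ≤ cd (N i) (a i) T' := by
        refine (le_max_left X0 1).trans ?_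
        rw [← Real.log_le_log_iff (lt_of_lt_of_le one_pos (le_max_right _ _)) hcp']
        linarith
      refine (H i T' h12 0).mono le_rfl ?_
      have h13 : Real.log (cd (N i) (a i) T') ≤ 2 * Real.log (cd (N i) (a i) T) := by linarith
      have h14 := mul_le_mul_of_nonneg_left h13 (by positivity : 0 ≤ ε / 2)
      linarith
  have SL : (Som X fun i => cd (N i) (a i)) →
      Lind (fun i s => X i s / gm (r i) (N i) (a i) s) (fun i => cd (N i) (a i)) := by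
    rintro ⟨ν, hν, HS⟩ ε hε
    obtain ⟨δ, κ, W, X1, hδ, hκ, H⟩ := fam1 m A c 0 ε hA hc0 le_rfl hε
    obtain ⟨X2, hX2⟩ := hν κ hκ
    obtain ⟨X3, hX3⟩ := HS δ hδ κ hκ W
    obtain ⟨K, hK, HK⟩ := triv m c hc0
    obtain ⟨x0, hx0⟩ : ∃ x0 : ℝ, x0 = max (max X1 X2) (max X3 1) := ⟨_, rfl⟩
    have y1 : X1 ≤ x0 := by rw [hx0]; exact (le_max_left _ _).trans (le_max_left _ _)
    have y2 : X2 ≤ x0 := by rw [hx0]; exact (le_max_right _ _).trans (le_max_left _ _)
    have y3 : X3 ≤ x0 := by rw [hx0]; exact (le_max_left _ _).trans (le_max_right _ _)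
    have y4 : 1 ≤ x0 := by rw [hx0]; exact (le_max_right _ _).trans (le_max_right _ _)
    refine ⟨1 + K * Real.exp (3 / 2 * Real.log x0), fun i T => ?_⟩
    have hcp : 0 < cd (N i) (a i) T := lt_of_lt_of_le one_pos (h1 i T)
    have hce : 1 ≤ cd (N i) (a i) T ^ ε := Real.one_le_rpow (h1 i T) hε.le
    have hKp : 0 < K * Real.exp (3 / 2 * Real.log x0) := by positivity
    rcases le_total x0 (cd (N i) (a i) T) with h2 | h2
    · have h3 := H (r i) (N i) (a i) (α i) (X i) (h i) (hAa i) (ha i) T (ν i T) (y1.trans h2)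
        (by rw [zero_add]; exact hX2 i T (y2.trans h2)) (hX3 i T (y3.trans h2))
      rw [zero_add] at h3
      refine h3.trans ?_
      have : 0 ≤ K * Real.exp (3 / 2 * Real.log x0) * cd (N i) (a i) T ^ ε := by positivity
      linarith
    · refine (HK (r i) (N i) (a i) (α i) (X i) (h i) (ha i) T).trans ?_
      have h3 : Real.log (cd (N i) (a i) T) ≤ Real.log x0 := Real.log_le_log hcp h2
      calc K * Real.exp (3 / 2 * Real.log (cd (N i) (a i) T)) ≤
            K * Real.exp (3 / 2 * Real.log x0) := by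
            refine mul_le_mul_of_nonneg_left (Real.exp_le_exp.2 ?_) hK.le
            linarith
        _ ≤ (1 + K * Real.exp (3 / 2 * Real.log x0)) * 1 := by linarith
        _ ≤ _ := mul_le_mul_of_nonneg_left hce (by positivity)
  exact ⟨⟨LU, fun hU => SL (US hU)⟩, ⟨fun hL => US (LU hL), SL⟩⟩

end Pool.Agent.TH839.LD
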