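import Mathlib

/-!
# Project LD (helper839): zeros of derivatives of completed L-functions and the Lindelof hypothesis

Statements of the analytic lemmas (Mathlib only).  `f u` stands for `Λ(1/2 + i T + u)`, `ℓ` for half the
logarithm of the analytic conductor at height `T`.
-/

set_option autoImplicit false

open Complex Filter Topology Set
open scoped ComplexConjugate

namespace Pool.Agent.TH839.LD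

/-- LOW: if `f` looks like `P exp (ℓ u)` for `Re u ≥ 3` and its `n`-th derivative has no zeros there, then the
`n`-th derivative is of size `P ℓ ^ n exp (ℓ u)` at `4 + i h` -/
def S_LOW : Prop := ∀ A η : ℝ, 0 < A → 0 < η → ∃ κ ℓ0 : ℝ, 0 < κ ∧ ∀ (ℓ P : ℝ) (n : ℕ) (f : ℂ → ℂ),
  ℓ0 ≤ ℓ → 0 < P → (n : ℝ) ≤ A * ℓ → Differentiable ℂ f →
  (∀ u : ℂ, 3 ≤ u.re → iteratedDeriv n f u ≠ 0) →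
  (∀ u : ℂ, ‖u‖ ≤ 2 * A + 12 → ‖f u‖ ≤ P * Real.exp (ℓ * max |u.re| 3 + κ * ℓ)) →
  (∀ u : ℂ, 3 ≤ u.re → ‖u‖ ≤ 2 * A + 12 → P * Real.exp (ℓ * u.re - κ * ℓ) ≤ ‖f u‖) →
  ∀ h : ℝ, |h| ≤ 1 → P * ℓ ^ n * Real.exp (4 * ℓ - η * ℓ) ≤ ‖iteratedDeriv n f (4 + h * I)‖

/-- VINT: vertical integration -/
def S_VINT : Prop := ∀ (X : ℂ → ℂ) (n : ℕ) (s e : ℂ) (M c : ℝ), Differentiable ℂ X → ‖e‖ = 1 →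
  0 < c → 0 ≤ M →
  (∀ k < n, Tendsto (fun v : ℝ => iteratedDeriv k X (s + v * e)) atTop (𝓝 0)) →
  (∀ v : ℝ, 0 ≤ v → ‖iteratedDeriv n X (s + v * e)‖ ≤ M * Real.exp (-(c * v))) →
  ‖X s‖ ≤ M / c ^ n

/-- GDEC: vertical decay of the Gamma function -/
def S_GDEC : Prop := ∀ A R : ℝ, 0 ≤ A → 0 ≤ R → ∃ C : ℝ, 0 < C ∧ ∀ (μ : ℂ) (T v : ℝ), ‖μ‖ ≤ A →
  μ.re ≤ 1 / 2 → -R ≤ T → 0 ≤ v →
  ‖Gammaℝ (7 / 2 + ((T + v : ℝ) : ℂ) * I - μ)‖ ≤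
    C * Real.exp (-(v / 2)) * ‖Gammaℝ (7 / 2 + (T : ℂ) * I - μ)‖

/-- CVX: local convexity -/
def S_CVX : Prop := ∀ ρ A κ W : ℝ, 0 ≤ ρ → ρ ≤ 3 → 0 ≤ A → 0 < κ → 0 < W →
  ∃ κ1 R ℓ0 : ℝ, 0 < κ1 ∧ W ≤ R ∧ ∀ (ℓ P : ℝ) (f : ℂ → ℂ), ℓ0 ≤ ℓ → 0 < P → Differentiable ℂ f →
  (∀ u : ℂ, ‖f (-conj u)‖ = ‖f u‖) →
  (∀ u : ℂ, |u.re| ≤ 3 → |u.im| ≤ R → ‖f u‖ ≤ P * Real.exp (A * ℓ)) →
  (∀ u : ℂ, u.re = ρ → |u.im| ≤ R → ‖f u‖ ≤ P * Real.exp (ρ * ℓ + κ1 * ℓ)) →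
  (∀ u : ℂ, u.re = 3 → |u.im| ≤ R → ‖f u‖ ≤ P * Real.exp (3 * ℓ + κ1 * ℓ)) →
  ∀ u : ℂ, |u.re| ≤ 3 → |u.im| ≤ W → ‖f u‖ ≤ P * Real.exp (max |u.re| ρ * ℓ + κ * ℓ)

end Pool.Agent.TH839.LD
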