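import Pool.Agent.W186.LH.Sab
import Pool.Agent.TH839.LD.Stm

/-!
# Project LD: few zeros give upper bounds, and upper bounds give few zeros
-/

set_option autoImplicit false

open Complex Filter Topology Set Metric
open scoped ComplexConjugate

namespace Pool.Agent.TH839.LD

open Pool.Agent.W186.LH

lemma ord_tr {G E : ℂ → ℂ} (hG : Differentiable ℂ G) (hne : ∃ u, G u ≠ 0) {a b : ℂ} (ha : a ≠ 0)
    (hE : Differentiable ℂ E) (hE0 : ∀ u, E u ≠ 0) (u0 : ℂ) :
    analyticOrderNatAt (fun u => G (a * u + b) * E u) u0 = analyticOrderNatAt G (a * u0 + b) := by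
  obtain ⟨h, hh, hh0, hGh⟩ := single hG hne (a * u0 + b)
  obtain ⟨n, hn⟩ : ∃ n : ℕ, n = analyticOrderNatAt G (a * u0 + b) := ⟨_, rfl⟩
  rw [← hn] at hGh ⊢
  have hc : Differentiable ℂ fun u : ℂ => a * u + b := by fun_prop
  refine ord_of (h := fun u => a ^ n * h (a * u + b) * E u) ?_ ?_ ?_ fun u => ?_
  · exact (hG.comp hc).mul hE
  · exact ((hh.comp hc).const_mul _).mul hE
  · exact mul_ne_zero (mul_ne_zero (pow_ne_zero _ ha) hh0) (hE0 _)
  · rw [hGh]
    have : a * u + b - (a * u0 + b) = a * (u - u0) := by ring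
    rw [this, mul_pow]
    ring

/-- few zeros give upper bounds -/
theorem bl (x0 κ : ℝ) (hx0 : 0 < x0) (hx1 : x0 ≤ 1 / 2) (hκ : 0 < κ) : ∃ κ1 : ℝ, 0 < κ1 ∧ κ1 ≤ 1 ∧
    ∀ (ℓ P : ℝ) (g : ℂ → ℂ), 1 ≤ ℓ → 0 < P → Differentiable ℂ g →
      (∀ u : ℂ, 0 ≤ u.re → ‖u‖ ≤ 20 → ‖g u‖ ≤ P * Real.exp (ℓ * max u.re 3 + κ1 * ℓ)) →
      (∀ u : ℂ, 3 ≤ u.re → ‖u‖ ≤ 20 → P * Real.exp (ℓ * u.re - κ1 * ℓ) ≤ ‖g u‖) →
      (∀ S : Finset ℂ, (∀ z ∈ S, g z = 0 ∧ x0 / 4 ≤ z.re ∧ ‖z‖ ≤ 20) →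
        ∑ z ∈ S, (analyticOrderNatAt g z : ℝ) ≤ κ1 * ℓ) →
      ∀ x : ℝ, x0 ≤ x → x ≤ 3 → ‖g x‖ ≤ P * Real.exp (ℓ * x + κ * ℓ) := by
  obtain ⟨ε, hε, H⟩ := sabZ (x0 / 2) κ 4 (by linarith) (by linarith) hκ (by norm_num)
  refine ⟨min ε 1, lt_min hε one_pos, min_le_right _ _, ?_⟩
  intro ℓ P g hℓ hP hg hup hlo hfew x hx hx3
  obtain ⟨κ1, hκ1⟩ : ∃ κ1 : ℝ, κ1 = min ε 1 := ⟨_, rfl⟩
  rw [← hκ1] at hup hlo hfew
  have hκε : κ1 ≤ ε := by rw [hκ1]; exact min_le_left _ _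
  have hκo : κ1 ≤ 1 := by rw [hκ1]; exact min_le_right _ _
  have hℓ0 : 0 < ℓ := by linarith
  obtain ⟨F, hF⟩ : ∃ F : ℂ → ℂ, F = fun z => g (2 * z + 0) * (cexp (-(2 * ℓ * z)) * ((P⁻¹ : ℝ) : ℂ)) :=
    ⟨_, rfl⟩
  have hPc : ((P⁻¹ : ℝ) : ℂ) ≠ 0 := by
    rw [Complex.ofReal_ne_zero]
    positivity
  have hE : Differentiable ℂ fun z : ℂ => cexp (-(2 * ℓ * z)) * ((P⁻¹ : ℝ) : ℂ) := by fun_prop
  have hE0 : ∀ z : ℂ, cexp (-(2 * ℓ * z)) * ((P⁻¹ : ℝ) : ℂ) ≠ 0 := fun z =>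
    mul_ne_zero (Complex.exp_ne_zero _) hPc
  have hFd : Differentiable ℂ F := by
    rw [hF]
    exact (hg.comp (by fun_prop)).mul hE
  have hFn : ∀ z : ℂ, ‖F z‖ = ‖g (2 * z)‖ * Real.exp (-(ℓ * (2 * z).re)) / P := by
    intro z
    rw [hF]
    simp only [add_zero]
    rw [norm_mul, norm_mul, Complex.norm_exp, Complex.norm_real, Real.norm_eq_abs,
      abs_of_pos (inv_pos.2 hP)]
    have e : (-(2 * (ℓ : ℂ) * z)).re = -(ℓ * (2 * z).re) := by
      simp
      ring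
    rw [e, div_eq_mul_inv, mul_assoc]
  have hne : ∃ u, g u ≠ 0 := by
    refine ⟨3, fun h0 => ?_⟩
    have h1 := hlo 3 (by norm_num) (by norm_num)
    rw [h0, norm_zero] at h1
    have h2 : 0 < P * Real.exp (ℓ * (3 : ℂ).re - κ1 * ℓ) := by positivity
    linarith
  have hnorm : ∀ z : ℂ, z ∈ closedBall (5 : ℂ) 5 → 0 ≤ z.re ∧ ‖2 * z‖ ≤ 20 := by
    intro z hz
    rw [mem_closedBall, dist_eq_norm] at hz
    have h1 := abs_le.1 ((Complex.abs_re_le_norm (z - 5)).trans hz)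
    rw [sub_re] at h1
    have h5 : (5 : ℂ).re = 5 := by norm_num
    rw [h5] at h1
    refine ⟨by linarith, ?_⟩
    rw [norm_mul, Complex.norm_ofNat]
    have h2 := norm_add_le (z - 5) 5
    rw [sub_add_cancel, Complex.norm_ofNat] at h2
    linarith
  have h2re : ∀ z : ℂ, (2 * z).re = 2 * z.re := fun z => by simp
  have R := H ℓ F hℓ0 hFd ?_ ?_ ?_ (x / 2 : ℝ) ?_
  · rw [hFn] at R
    have e : (2 * ((x / 2 : ℝ) : ℂ)) = x := by push_cast; ring
    rw [e, ofReal_re, div_le_iff₀ hP] at R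
    have h1 : ‖g x‖ = ‖g x‖ * Real.exp (-(ℓ * x)) * Real.exp (ℓ * x) := by
      rw [mul_assoc, ← Real.exp_add, neg_add_cancel, Real.exp_zero, mul_one]
    rw [h1]
    calc _ ≤ Real.exp (κ * ℓ) * P * Real.exp (ℓ * x) := by gcongr
      _ = P * Real.exp (ℓ * x + κ * ℓ) := by rw [Real.exp_add]; ring
  · intro z hz
    obtain ⟨h1, h2⟩ := hnorm z hz
    rw [hFn, div_le_iff₀ hP]
    have h3 := hup (2 * z) (by rw [h2re]; linarith) h2
    calc ‖g (2 * z)‖ * Real.exp (-(ℓ * (2 * z).re))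
        ≤ P * Real.exp (ℓ * max (2 * z).re 3 + κ1 * ℓ) * Real.exp (-(ℓ * (2 * z).re)) := by gcongr
      _ = P * Real.exp (ℓ * max (2 * z).re 3 + κ1 * ℓ + -(ℓ * (2 * z).re)) := by
          rw [mul_assoc, ← Real.exp_add]
      _ ≤ P * Real.exp (4 * ℓ) := by
          gcongr
          have h4 : max (2 * z).re 3 ≤ (2 * z).re + 3 := by
            apply max_le
            · linarith
            · rw [h2re]; linarith
          have h5 : ℓ * max (2 * z).re 3 ≤ ℓ * ((2 * z).re + 3) := by gcongr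
          have h6 : κ1 * ℓ ≤ 1 * ℓ := by gcongr
          linarith
      _ = _ := by ring
  · intro z hz
    have hz5 : z ∈ closedBall (5 : ℂ) 5 := closedBall_subset_closedBall (by norm_num) hz
    obtain ⟨-, h2⟩ := hnorm z hz5
    rw [mem_closedBall, dist_eq_norm] at hz
    have h1 := abs_le.1 ((Complex.abs_re_le_norm (z - 5)).trans hz)
    rw [sub_re] at h1
    have h5 : (5 : ℂ).re = 5 := by norm_num
    rw [h5] at h1
    have h3 : 3 ≤ (2 * z).re := by rw [h2re]; linarith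
    have h4 := hup (2 * z) (by linarith) h2
    have h6 := hlo (2 * z) h3 h2
    rw [max_eq_left h3] at h4
    have h7 : κ1 * ℓ ≤ ε * ℓ := by gcongr
    rw [hFn]
    constructor
    · rw [le_div_iff₀ hP]
      calc Real.exp (-(ε * ℓ)) * P ≤ Real.exp (-(κ1 * ℓ)) * P := by gcongr
        _ = P * Real.exp (ℓ * (2 * z).re - κ1 * ℓ) * Real.exp (-(ℓ * (2 * z).re)) := by
            rw [mul_assoc, ← Real.exp_add, mul_comm]
            congr 2
            ring
        _ ≤ _ := by gcongr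
    · rw [div_le_iff₀ hP]
      calc _ ≤ P * Real.exp (ℓ * (2 * z).re + κ1 * ℓ) * Real.exp (-(ℓ * (2 * z).re)) := by gcongr
        _ = Real.exp (κ1 * ℓ) * P := by
            rw [mul_assoc, ← Real.exp_add, mul_comm]
            congr 2
            ring
        _ ≤ _ := by gcongr
  · intro S hS
    classical
    have hinj : Set.InjOn (fun z : ℂ => 2 * z) (S : Set ℂ) := fun a _ b _ h =>
      mul_left_cancel₀ two_ne_zero h
    have h1 := hfew (S.image fun z => 2 * z) (by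
      intro w hw
      obtain ⟨z, hz, rfl⟩ := Finset.mem_image.1 hw
      obtain ⟨hz0, hzb⟩ := hS z hz
      have hz5 : z ∈ closedBall (5 : ℂ) 5 := closedBall_subset_closedBall (by linarith) hzb
      refine ⟨?_, ?_, (hnorm z hz5).2⟩
      · have h2 : ‖F z‖ = 0 := by rw [hz0, norm_zero]
        rw [hFn, div_eq_zero_iff] at h2
        rcases h2 with h2 | h2
        · rcases mul_eq_zero.1 h2 with h3 | h3
          · exact norm_eq_zero.1 h3
          · exact absurd h3 (Real.exp_pos _).ne'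
        · exact absurd h2 hP.ne'
      · rw [mem_closedBall, dist_eq_norm] at hzb
        have h3 := abs_le.1 ((Complex.abs_re_le_norm (z - 5)).trans hzb)
        rw [sub_re] at h3
        have h5 : (5 : ℂ).re = 5 := by norm_num
        rw [h5] at h3
        rw [h2re]
        linarith)
    rw [Finset.sum_image hinj] at h1
    have h2 : ∀ z ∈ S, (analyticOrderNatAt F z : ℝ) = analyticOrderNatAt g (2 * z) := by
      intro z _
      have h3 := ord_tr hg hne (a := 2) (b := 0) two_ne_zero hE hE0 z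
      rw [add_zero] at h3
      rw [hF, ← h3]
    rw [Finset.sum_congr rfl h2]
    refine h1.trans ?_
    gcongr
  · rw [mem_closedBall, dist_eq_norm]
    have e : (((x / 2 : ℝ) : ℂ) - 5) = ((x / 2 - 5 : ℝ) : ℂ) := by push_cast; ring
    rw [e, Complex.norm_real, Real.norm_eq_abs, abs_le]
    constructor <;> linarith

/-- upper bounds give few zeros -/
theorem cnt (δ ε : ℝ) (hδ : 0 < δ) (hδ1 : δ ≤ 1) (hε : 0 < ε) : ∃ κ : ℝ, 0 < κ ∧
    ∀ (ℓ P : ℝ) (g : ℂ → ℂ), 1 ≤ ℓ → 0 < P → Differentiable ℂ g →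
      (∀ u : ℂ, 0 ≤ u.re → ‖u‖ ≤ 10 → ‖g u‖ ≤ P * Real.exp (ℓ * u.re + κ * ℓ)) →
      (∀ h : ℝ, |h| ≤ 1 → P * Real.exp (4 * ℓ - κ * ℓ) ≤ ‖g (4 + h * I)‖) →
      ∀ S : Finset ℂ, (∀ z ∈ S, g z = 0 ∧ δ ≤ z.re ∧ z.re ≤ 3 ∧ |z.im| ≤ 1) →
        ∑ z ∈ S, (analyticOrderNatAt g z : ℝ) ≤ ε * ℓ := by
  classical
  obtain ⟨q, hq⟩ : ∃ q : ℝ, q = Real.log (4 / (4 - δ / 2)) := ⟨_, rfl⟩
  have hq0 : 0 < q := by
    rw [hq]
    apply Real.log_pos
    rw [one_lt_div (by linarith)]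
    linarith
  obtain ⟨N, hN⟩ : ∃ N : ℕ, N = ⌊2 / δ⌋₊ := ⟨_, rfl⟩
  refine ⟨ε * q / (2 * (N + 1)), by positivity, ?_⟩
  intro ℓ P g hℓ hP hg hup hlo S hS
  obtain ⟨κ, hκ⟩ : ∃ κ : ℝ, κ = ε * q / (2 * (N + 1)) := ⟨_, rfl⟩
  rw [← hκ] at hup hlo
  have hℓ0 : 0 < ℓ := by linarith
  -- one window
  have key : ∀ h : ℝ, |h| ≤ 1 → ∀ S' : Finset ℂ, (∀ z ∈ S', g z = 0 ∧ δ ≤ z.re ∧ z.re ≤ 3 ∧
      |z.im - h| ≤ δ) → (∑ z ∈ S', (analyticOrderNatAt g z : ℝ)) * q ≤ 2 * κ * ℓ := by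
    intro h hh S' hS'
    obtain ⟨F, hF⟩ : ∃ F : ℂ → ℂ, F = fun z => g (1 * z + 0) * cexp (-(ℓ * z)) := ⟨_, rfl⟩
    have hE : Differentiable ℂ fun z : ℂ => cexp (-(ℓ * z)) := by fun_prop
    have hFd : Differentiable ℂ F := by
      rw [hF]
      exact (hg.comp (by fun_prop)).mul hE
    have hFn : ∀ z : ℂ, ‖F z‖ = ‖g z‖ * Real.exp (-(ℓ * z.re)) := by
      intro z
      rw [hF]
      simp only [one_mul, add_zero]
      rw [norm_mul, Complex.norm_exp, neg_re, Complex.re_ofReal_mul]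
    obtain ⟨c, hc⟩ : ∃ c : ℂ, c = 4 + h * I := ⟨_, rfl⟩
    have hcre : c.re = 4 := by rw [hc]; simp
    have hcim : c.im = h := by rw [hc]; simp
    have h1 := hlo h hh
    rw [← hc] at h1
    have hFc : P * Real.exp (-(κ * ℓ)) ≤ ‖F c‖ := by
      rw [hFn, hcre]
      calc P * Real.exp (-(κ * ℓ)) = P * Real.exp (4 * ℓ - κ * ℓ) * Real.exp (-(ℓ * 4)) := by
            rw [mul_assoc, ← Real.exp_add]
            congr 2
            ring
        _ ≤ _ := by gcongr
    have hFc0 : F c ≠ 0 := by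
      intro h0
      rw [h0, norm_zero] at hFc
      have : 0 < P * Real.exp (-(κ * ℓ)) := by positivity
      linarith
    have hne : ∃ u, g u ≠ 0 := by
      refine ⟨c, fun h0 => ?_⟩
      rw [h0, norm_zero] at h1
      have : 0 < P * Real.exp (4 * ℓ - κ * ℓ) := by positivity
      linarith
    have hsph : ∀ u ∈ sphere c 4, ‖F u‖ ≤ P * Real.exp (κ * ℓ) := by
      intro u hu
      rw [mem_sphere_iff_norm] at hu
      have h2 := abs_le.1 ((Complex.abs_re_le_norm (u - c)).trans hu.le)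
      rw [sub_re, hcre] at h2
      have h3 : ‖u‖ ≤ 10 := by
        have h4 := norm_add_le (u - c) c
        rw [sub_add_cancel, hu] at h4
        have h5 : ‖c‖ ≤ 5 := by
          rw [hc]
          refine (norm_add_le _ _).trans ?_
          rw [norm_mul, Complex.norm_I, mul_one, Complex.norm_real, Real.norm_eq_abs,
            Complex.norm_ofNat]
          linarith
        linarith
      rw [hFn]
      calc ‖g u‖ * Real.exp (-(ℓ * u.re)) ≤ P * Real.exp (ℓ * u.re + κ * ℓ) *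
            Real.exp (-(ℓ * u.re)) := by
              have := hup u (by linarith) h3
              gcongr
        _ = P * Real.exp (κ * ℓ) := by
            rw [mul_assoc, ← Real.exp_add]
            congr 2
            ring
    have hball : ∀ z ∈ S', z ∈ closedBall c (4 - δ / 2) := by
      intro z hz
      obtain ⟨-, h2, h3, h4⟩ := hS' z hz
      rw [mem_closedBall, dist_eq_norm]
      have h5 : ‖z - c‖ ^ 2 ≤ (4 - δ / 2) ^ 2 := by
        rw [Complex.sq_norm, Complex.normSq_apply, sub_re, sub_im, hcre, hcim]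
        have h6 : (z.im - h) * (z.im - h) ≤ δ ^ 2 := by
          rw [← sq, ← sq_abs]
          gcongr
        have h7 : (z.re - 4) * (z.re - 4) ≤ (4 - δ) ^ 2 := by
          nlinarith
        nlinarith
      exact (sq_le_sq₀ (norm_nonneg _) (by linarith)).1 h5
    have hj := jc hFd (c := c) (r := 4 - δ / 2) (R := 4) (by linarith) (by linarith) hsph hFc0 S'
      hball
    have hord : ∀ z ∈ S', analyticOrderNatAt F z = analyticOrderNatAt g z := by
      intro z _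
      have h3 := ord_tr hg hne (a := 1) (b := 0) one_ne_zero hE (fun _ => Complex.exp_ne_zero _) z
      rw [add_zero, one_mul] at h3
      rw [hF, ← h3]
    rw [Finset.sum_congr rfl hord] at hj
    obtain ⟨M, hM⟩ : ∃ M : ℕ, M = ∑ z ∈ S', analyticOrderNatAt g z := ⟨_, rfl⟩
    have hMc : (∑ z ∈ S', (analyticOrderNatAt g z : ℝ)) = M := by rw [hM]; push_cast; rfl
    rw [hMc]
    rw [← hM] at hj
    have h6 : (4 / (4 - δ / 2)) ^ M * (P * Real.exp (-(κ * ℓ))) ≤ P * Real.exp (κ * ℓ) := by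
      refine le_trans ?_ hj
      have : 0 ≤ 4 / (4 - δ / 2) := div_nonneg (by norm_num) (by linarith)
      gcongr
    have h7 : (4 / (4 - δ / 2)) ^ M = Real.exp (M * q) := by
      rw [hq, ← Real.log_pow, Real.exp_log]
      have : 0 < 4 / (4 - δ / 2) := div_pos (by norm_num) (by linarith)
      positivity
    rw [h7] at h6
    have h8 : P * Real.exp (M * q + -(κ * ℓ)) ≤ P * Real.exp (κ * ℓ) := by
      rw [Real.exp_add]
      calc _ = Real.exp (M * q) * (P * Real.exp (-(κ * ℓ))) := by ring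
        _ ≤ _ := h6
    have h9 := Real.exp_le_exp.1 (le_of_mul_le_mul_left h8 hP)
    linarith
  -- decomposition into windows
  have hmap : ∀ z ∈ S, ⌊(z.im + 1) / δ⌋₊ ∈ Finset.range (N + 1) := by
    intro z hz
    obtain ⟨-, -, -, h4⟩ := hS z hz
    have h5 := abs_le.1 h4
    rw [Finset.mem_range, Nat.lt_succ_iff, hN]
    apply Nat.floor_le_floor
    gcongr
    linarith
  rw [← Finset.sum_fiberwise_of_maps_to hmap]
  have h1 : ∀ k ∈ Finset.range (N + 1), (∑ z ∈ S.filter fun z => ⌊(z.im + 1) / δ⌋₊ = k,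
      (analyticOrderNatAt g z : ℝ)) ≤ 2 * κ * ℓ / q := by
    intro k _
    rw [le_div_iff₀ hq0]
    by_cases hk : (-1 + k * δ : ℝ) ≤ 1
    · refine key (-1 + k * δ) ?_ _ ?_
      · rw [abs_le]
        exact ⟨by have : 0 ≤ (k : ℝ) * δ := by positivity
                  linarith, hk⟩
      · intro z hz
        rw [Finset.mem_filter] at hz
        obtain ⟨hz, hk2⟩ := hz
        obtain ⟨a, b, c, d⟩ := hS z hz
        have h5 := abs_le.1 d
        refine ⟨a, b, c, ?_⟩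
        have h6 : (k : ℝ) ≤ (z.im + 1) / δ := by
          rw [← hk2]
          exact Nat.floor_le (div_nonneg (by linarith) hδ.le)
        have h7 : (z.im + 1) / δ < k + 1 := by
          rw [← hk2]
          exact Nat.lt_floor_add_one _
        rw [le_div_iff₀ hδ] at h6
        rw [div_lt_iff₀ hδ] at h7
        rw [abs_le]
        constructor <;> nlinarith
    · have h2 : (S.filter fun z => ⌊(z.im + 1) / δ⌋₊ = k) = ∅ := by
        rw [Finset.filter_eq_empty_iff]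
        intro z hz hk2
        obtain ⟨a, b, c, d⟩ := hS z hz
        have h5 := abs_le.1 d
        have h6 : (k : ℝ) ≤ (z.im + 1) / δ := by
          rw [← hk2]
          exact Nat.floor_le (div_nonneg (by linarith) hδ.le)
        rw [le_div_iff₀ hδ] at h6
        apply hk
        linarith
      rw [h2, Finset.sum_empty, zero_mul]
      have hκ0 : 0 ≤ κ := by rw [hκ]; positivity
      positivity
  refine (Finset.sum_le_sum h1).trans ?_
  rw [Finset.sum_const, Finset.card_range, nsmul_eq_mul, hκ]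
  push_cast
  apply le_of_eq
  field_simp

end Pool.Agent.TH839.LD
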