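import Pool.Agent.TH839.LD.Fsm
import Pool.Agent.TH839.UH.EP
import Pool.Agent.TH9.LD.Gdec

/-!
# Project LD: Euler products with bounded archimedean parameters
-/

set_option autoImplicit false

open Complex Filter Topology Set
open scoped ComplexConjugate

namespace Pool.Agent.TH839.LD

open Pool.Agent.W169.HF H353.E Pool.Agent.W355.UN Pool.Agent.TH839.UH Pool.Agent.TH839.UH.EP
open Pool.Agent.TH839.UH.NF (B0 B0_nonneg)

variable {m r : ℕ} {N : ℝ} {a : Fin m → ℂ} {α : Nat.Primes → Fin m → ℂ} {X : ℂ → ℂ}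

lemma E_bd (hα : ∀ p j, ‖α p j‖ ≤ ((p : ℕ) : ℝ) ^ (1 / 2 : ℝ)) {s : ℂ} (hs : 7 / 4 ≤ s.re) :
    ‖E α s‖ ≤ Real.exp (m * (B0 / 2)) ∧ Real.exp (-(m * (B0 / 2))) ≤ ‖E α s‖ := by
  have h1 : E α s = cexp (LG α s) := (prod_eq hα hs).tprod_eq
  have h2 := LG_le hα hs
  have h3 := (Complex.abs_re_le_norm (LG α s)).trans h2
  rw [abs_le] at h3
  rw [h1, Complex.norm_exp]
  exact ⟨Real.exp_le_exp.2 h3.2, Real.exp_le_exp.2 h3.1⟩

lemma GRc (s : ℂ) : ‖Gammaℝ (conj s)‖ = ‖Gammaℝ s‖ := by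
  have h : Gammaℝ (conj s) = conj (Gammaℝ s) := by
    have hpi : ((Real.pi : ℂ)).arg ≠ Real.pi := by
      rw [Complex.arg_ofReal_of_nonneg Real.pi_pos.le]
      exact Real.pi_pos.ne
    have hp : ((Real.pi : ℂ)) ^ (conj (-s / 2)) = conj ((Real.pi : ℂ) ^ (-s / 2)) := by
      rw [Complex.cpow_conj _ _ hpi, Complex.conj_ofReal]
    rw [Complex.Gammaℝ_def, Complex.Gammaℝ_def, map_mul, ← hp, ← Complex.Gamma_conj]
    simp only [map_neg, map_div₀, map_ofNat]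
  rw [h, Complex.norm_conj]

/-- vertical decay of `Γ_ℝ` away from the real axis, in both directions -/
lemma gd {A R C : ℝ} (H : ∀ (μ : ℂ) (T v : ℝ), ‖μ‖ ≤ A → μ.re ≤ 1 / 2 → -R ≤ T → 0 ≤ v →
    ‖Gammaℝ (7 / 2 + ((T + v : ℝ) : ℂ) * I - μ)‖ ≤
      C * Real.exp (-(v / 2)) * ‖Gammaℝ (7 / 2 + (T : ℂ) * I - μ)‖) {μ : ℂ} {σ T v : ℝ}
    (hμ : ‖μ‖ ≤ A) (hre : μ.re ≤ 1 / 2) (hσ : |σ| = 1) (hT : -R ≤ σ * T) (hv : 0 ≤ v) :
    ‖Gammaℝ (7 / 2 + ((T + σ * v : ℝ) : ℂ) * I - μ)‖ ≤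
      C * Real.exp (-(v / 2)) * ‖Gammaℝ (7 / 2 + (T : ℂ) * I - μ)‖ := by
  rcases (abs_eq (zero_le_one' ℝ)).1 hσ with h1 | h1
  · have := H μ T v hμ hre (by rw [h1, one_mul] at hT; exact hT) hv
    rw [h1, one_mul]
    exact this
  · have := H (conj μ) (-T) v (by rw [Complex.norm_conj]; exact hμ) (by rw [conj_re]; exact hre)
      (by rw [h1] at hT; linarith) hv
    have e1 : (7 / 2 + ((-T + v : ℝ) : ℂ) * I - conj μ : ℂ) =
        conj (7 / 2 + ((T + σ * v : ℝ) : ℂ) * I - μ) := by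
      rw [h1]
      simp only [map_sub, map_add, map_mul, Complex.conj_ofReal, Complex.conj_I, map_div₀,
        map_ofNat]
      push_cast
      ring
    have e2 : (7 / 2 + ((-T : ℝ) : ℂ) * I - conj μ : ℂ) = conj (7 / 2 + (T : ℂ) * I - μ) := by
      simp only [map_sub, map_add, map_mul, Complex.conj_ofReal, Complex.conj_I, map_div₀,
        map_ofNat]
      push_cast
      ring
    rw [e1, e2, GRc, GRc] at this
    exact this

lemma norm_vert {σ T v : ℝ} (hσ : |σ| = 1) (hv : 0 ≤ v) {b : ℝ} (hb : 1 ≤ b) :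
    ‖((b : ℂ) + ((T + σ * v : ℝ) : ℂ) * I)‖ ≤ (1 + v) * ‖((b : ℂ) + (T : ℂ) * I)‖ := by
  have e : ((b : ℂ) + ((T + σ * v : ℝ) : ℂ) * I) = ((b : ℂ) + (T : ℂ) * I) + ((σ * v : ℝ) : ℂ) * I := by
    push_cast
    ring
  have h1 := norm_add_le ((b : ℂ) + (T : ℂ) * I) (((σ * v : ℝ) : ℂ) * I)
  rw [← e, norm_mul, Complex.norm_I, mul_one, Complex.norm_real, Real.norm_eq_abs, abs_mul, hσ,
    one_mul, abs_of_nonneg hv] at h1
  have h2 : b ≤ ‖((b : ℂ) + (T : ℂ) * I)‖ := by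
    have := Complex.re_le_norm ((b : ℂ) + (T : ℂ) * I)
    simpa using this
  nlinarith

lemma sum_mono {A R σ T v : ℝ} (hA : 0 ≤ A) (hR : 0 ≤ R) (hN : 1 ≤ N) {μ : Fin m → ℂ}
    (hμ : ∀ j, ‖μ j‖ ≤ A) (hσ : |σ| = 1) (hT : -R ≤ σ * T) (hv : 0 ≤ v) :
    hc N μ T - m * (R + 2 * A) ≤ hc N μ (T + σ * v) := by
  have hσ2 : σ * σ = 1 := by
    rcases (abs_eq (zero_le_one' ℝ)).1 hσ with h1 | h1 <;> rw [h1] <;> norm_num
  have key : ∀ j : Fin m, Real.log (1 + ‖(T : ℂ) * I - μ j‖) ≤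
      Real.log (1 + ‖((T + σ * v : ℝ) : ℂ) * I - μ j‖) + 2 * (R + 2 * A) := by
    intro j
    obtain ⟨w, hw⟩ : ∃ w : ℝ, w = ‖((T + σ * v : ℝ) : ℂ) * I - μ j‖ := ⟨_, rfl⟩
    have hw0 : 0 ≤ w := by rw [hw]; exact norm_nonneg _
    have hT1 : ‖(T : ℂ) * I - μ j‖ ≤ |T| + A := by
      refine (norm_sub_le _ _).trans ?_
      rw [norm_mul, Complex.norm_I, mul_one, Complex.norm_real, Real.norm_eq_abs]
      linarith [hμ j]
    have hT2 : |T + σ * v| ≤ w + A := by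
      have h1 := norm_add_le (((T + σ * v : ℝ) : ℂ) * I - μ j) (μ j)
      rw [sub_add_cancel, norm_mul, Complex.norm_I, mul_one, Complex.norm_real, Real.norm_eq_abs,
        ← hw] at h1
      linarith [hμ j]
    have hT3 : |T| ≤ |T + σ * v| + R := by
      have e1 : |T| = |σ * T| := by rw [abs_mul, hσ, one_mul]
      have e2 : |T + σ * v| = |σ * T + v| := by
        have : σ * (T + σ * v) = σ * T + v := by
          rw [mul_add, ← mul_assoc, hσ2, one_mul]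
        rw [← this, abs_mul, hσ, one_mul]
      rw [e1, e2]
      rcases le_total 0 (σ * T) with h1 | h1
      · rw [abs_of_nonneg h1, abs_of_nonneg (by linarith)]
        linarith
      · rw [abs_of_nonpos h1]
        have := abs_nonneg (σ * T + v)
        linarith
    have h4 : 1 + ‖(T : ℂ) * I - μ j‖ ≤ (1 + w) * (1 + (R + 2 * A)) := by
      have : 0 ≤ w * (R + 2 * A) := by positivity
      nlinarith
    calc Real.log (1 + ‖(T : ℂ) * I - μ j‖) ≤ Real.log ((1 + w) * (1 + (R + 2 * A))) :=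
          Real.log_le_log (by positivity) h4
      _ = Real.log (1 + w) + Real.log (1 + (R + 2 * A)) :=
          Real.log_mul (by positivity) (by positivity)
      _ ≤ _ := by
          have h5 := log_one_add_le (v := R + 2 * A) (by positivity)
          have h6 : 0 ≤ R + 2 * A := by positivity
          rw [← hw]
          linarith
  rw [hc_eq hN, hc_eq hN]
  have h3 := Finset.sum_le_sum (s := (Finset.univ : Finset (Fin m))) fun j _ => key j
  rw [Finset.sum_add_distrib (g := fun _ => 2 * (R + 2 * A)), Finset.sum_const, Finset.card_univ,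
    Fintype.card_fin, nsmul_eq_mul] at h3
  linarith

lemma poly_exp {v : ℝ} (hv : 0 ≤ v) : (1 + v) ^ 2 ≤ 64 * Real.exp (v / 4) := by
  have h1 := Real.add_one_le_exp (v / 8)
  have h2 : 1 + v ≤ 8 * Real.exp (v / 8) := by linarith
  calc (1 + v) ^ 2 ≤ (8 * Real.exp (v / 8)) ^ 2 := by gcongr
    _ = 64 * (Real.exp (v / 8) * Real.exp (v / 8)) := by ring
    _ = _ := by
      rw [← Real.exp_add]
      congr 2
      ring

/-- the class `Dec` -/
theorem dec (m : ℕ) (A : ℝ) (hA : 0 ≤ A) : ∃ Dc : ℝ → ℝ, ∀ (r : ℕ) (N : ℝ) (a : Fin m → ℂ)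
    (α : Nat.Primes → Fin m → ℂ) (X : ℂ → ℂ), HW m r N a α X → (∀ j, ‖a j‖ ≤ A) →
      Dec Dc N (fun j => -a j) X := by
  have H0 : ∀ R : ℝ, ∃ C : ℝ, 0 ≤ R → 0 < C ∧ ∀ (μ : ℂ) (T v : ℝ), ‖μ‖ ≤ A → μ.re ≤ 1 / 2 → -R ≤ T →
      0 ≤ v → ‖Gammaℝ (7 / 2 + ((T + v : ℝ) : ℂ) * I - μ)‖ ≤
        C * Real.exp (-(v / 2)) * ‖Gammaℝ (7 / 2 + (T : ℂ) * I - μ)‖ := by
    intro R
    rcases le_total 0 R with h | h
    · obtain ⟨C, hC, H⟩ := Pool.Agent.TH9.LD.gdec A R hA h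
      exact ⟨C, fun _ => ⟨hC, H⟩⟩
    · rcases eq_or_lt_of_le h with h1 | h1
      · obtain ⟨C, hC, H⟩ := Pool.Agent.TH9.LD.gdec A R hA h1.ge
        exact ⟨C, fun _ => ⟨hC, H⟩⟩
      · exact ⟨1, fun h2 => absurd h2 (not_le.2 h1)⟩
  choose C hC using H0
  refine ⟨fun R => (64 * C R * Real.exp B0) ^ m + m * (R + 2 * A), ?_⟩
  intro r N a α X h ha R hR
  obtain ⟨hC0, HC⟩ := hC R hR
  have hm0 : (0 : ℝ) ≤ m := Nat.cast_nonneg m
  have hB := B0_nonneg
  have hμ : ∀ j, ‖(fun j => -a j) j‖ ≤ A := fun j => by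
    simp only [norm_neg]
    exact ha j
  have hD1 : 0 ≤ (64 * C R * Real.exp B0) ^ m := by positivity
  have hD2 : 0 ≤ (m : ℝ) * (R + 2 * A) := by positivity
  refine ⟨by positivity, ?_⟩
  intro σ T hσ hT v hv
  constructor
  · obtain ⟨s, hs⟩ : ∃ s : ℂ, s = 7 / 2 + (T : ℂ) * I := ⟨_, rfl⟩
    obtain ⟨s', hs'⟩ : ∃ s' : ℂ, s' = 7 / 2 + ((T + σ * v : ℝ) : ℂ) * I := ⟨_, rfl⟩
    have hre : s.re = 7 / 2 := by rw [hs]; simp
    have hre' : s'.re = 7 / 2 := by rw [hs']; simp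
    rw [← hs, ← hs']
    have hN0 : 0 < N := by linarith [h.hN]
    have g1 : ‖gaf N (fun j => -a j) s'‖ ≤ (C R * Real.exp (-(v / 2))) ^ m *
        ‖gaf N (fun j => -a j) s‖ := by
      unfold gaf
      rw [norm_mul, norm_mul, norm_prod, norm_prod, Complex.norm_cpow_eq_rpow_re_of_pos hN0,
        Complex.norm_cpow_eq_rpow_re_of_pos hN0]
      have e1 : (s / 2).re = (s' / 2).re := by
        rw [show (2 : ℂ) = ((2 : ℝ) : ℂ) by norm_num, Complex.div_ofReal_re, Complex.div_ofReal_re,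
          hre, hre']
      rw [e1]
      have h1 : ∏ j, ‖Gammaℝ (s' - (fun j => -a j) j)‖ ≤
          ∏ j, (C R * Real.exp (-(v / 2)) * ‖Gammaℝ (s - (fun j => -a j) j)‖) := by
        refine Finset.prod_le_prod (fun _ _ => norm_nonneg _) fun j _ => ?_
        rw [hs, hs']
        exact gd HC (hμ j) (h.re_le j) hσ hT hv
      rw [Finset.prod_mul_distrib, Finset.prod_const, Finset.card_univ, Fintype.card_fin] at h1
      calc _ ≤ N ^ (s' / 2).re * ((C R * Real.exp (-(v / 2))) ^ m *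
            ∏ j, ‖Gammaℝ (s - (fun j => -a j) j)‖) := by gcongr
        _ = _ := by ring
    have g2 : ‖s' * (s' - 1)‖ ≤ (1 + v) ^ 2 * ‖s * (s - 1)‖ := by
      rw [norm_mul, norm_mul]
      have h1 := norm_vert (T := T) hσ hv (b := 7 / 2) (by norm_num)
      have h2 := norm_vert (T := T) hσ hv (b := 5 / 2) (by norm_num)
      have e1 : (((7 / 2 : ℝ) : ℂ) + ((T + σ * v : ℝ) : ℂ) * I) = s' := by rw [hs']; push_cast; ring
      have e2 : (((7 / 2 : ℝ) : ℂ) + (T : ℂ) * I) = s := by rw [hs]; push_cast; ring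
      have e3 : (((5 / 2 : ℝ) : ℂ) + ((T + σ * v : ℝ) : ℂ) * I) = s' - 1 := by
        rw [hs']; push_cast; ring
      have e4 : (((5 / 2 : ℝ) : ℂ) + (T : ℂ) * I) = s - 1 := by rw [hs]; push_cast; ring
      rw [e1, e2] at h1
      rw [e3, e4] at h2
      calc ‖s'‖ * ‖s' - 1‖ ≤ ((1 + v) * ‖s‖) * ((1 + v) * ‖s - 1‖) := by gcongr
        _ = _ := by ring
    have g3 : ‖E α s'‖ ≤ Real.exp (m * B0) * ‖E α s‖ := by
      have h1 := (E_bd h.hα (s := s') (by rw [hre']; norm_num)).1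
      have h2 := (E_bd h.hα (s := s) (by rw [hre]; norm_num)).2
      calc ‖E α s'‖ ≤ Real.exp (m * (B0 / 2)) := h1
        _ = Real.exp (m * B0) * Real.exp (-(m * (B0 / 2))) := by
            rw [← Real.exp_add]
            congr 1
            ring
        _ ≤ _ := by gcongr
    rw [h.eq' (s := s') (by rw [hre']; norm_num), h.eq' (s := s) (by rw [hre]; norm_num)]
    simp only [norm_mul, norm_pow]
    simp only [norm_mul] at g2
    have g4 : (‖s'‖ * ‖s' - 1‖) ^ r ≤ ((1 + v) ^ 2) ^ m * (‖s‖ * ‖s - 1‖) ^ r := by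
      calc (‖s'‖ * ‖s' - 1‖) ^ r ≤ ((1 + v) ^ 2 * (‖s‖ * ‖s - 1‖)) ^ r := by gcongr
        _ = ((1 + v) ^ 2) ^ r * (‖s‖ * ‖s - 1‖) ^ r := mul_pow _ _ _
        _ ≤ _ := by
          have h1 : 1 ≤ (1 + v) ^ 2 := one_le_pow₀ (by linarith)
          have h2 := pow_le_pow_right₀ h1 h.hr
          gcongr
    have g5 : (C R * Real.exp (-(v / 2))) ^ m * ((1 + v) ^ 2) ^ m * Real.exp (m * B0) ≤
        (64 * C R * Real.exp B0) ^ m * Real.exp (-(v / 4)) := by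
      have h1 : Real.exp (m * B0) = Real.exp B0 ^ m := by rw [← Real.exp_nat_mul]
      rw [h1, ← mul_pow, ← mul_pow]
      have h2 : C R * Real.exp (-(v / 2)) * (1 + v) ^ 2 * Real.exp B0 ≤
          64 * C R * Real.exp B0 * Real.exp (-(v / 4)) := by
        have h3 := poly_exp hv
        calc _ ≤ C R * Real.exp (-(v / 2)) * (64 * Real.exp (v / 4)) * Real.exp B0 := by gcongr
          _ = 64 * C R * Real.exp B0 * (Real.exp (-(v / 2)) * Real.exp (v / 4)) := by ring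
          _ = _ := by
            rw [← Real.exp_add]
            congr 2
            ring
      have h4 : Real.exp (-(v / 4)) ^ m ≤ Real.exp (-(v / 4)) := by
        have h5 : Real.exp (-(v / 4)) ≤ 1 := by
          rw [Real.exp_le_one_iff]
          linarith
        exact pow_le_of_le_one (Real.exp_pos _).le h5 (by have := h.hm; omega)
      calc _ ≤ (64 * C R * Real.exp B0 * Real.exp (-(v / 4))) ^ m := by gcongr
        _ = (64 * C R * Real.exp B0) ^ m * Real.exp (-(v / 4)) ^ m := mul_pow _ _ _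
        _ ≤ _ := by gcongr
    calc _ ≤ ((C R * Real.exp (-(v / 2))) ^ m * ‖gaf N (fun j => -a j) s‖) *
          ((((1 + v) ^ 2) ^ m * (‖s‖ * ‖s - 1‖) ^ r) * (Real.exp (m * B0) * ‖E α s‖)) := by gcongr
      _ = ((C R * Real.exp (-(v / 2))) ^ m * ((1 + v) ^ 2) ^ m * Real.exp (m * B0)) *
          (‖gaf N (fun j => -a j) s‖ * ((‖s‖ * ‖s - 1‖) ^ r * ‖E α s‖)) := by ring
      _ ≤ ((64 * C R * Real.exp B0) ^ m * Real.exp (-(v / 4))) *
          (‖gaf N (fun j => -a j) s‖ * ((‖s‖ * ‖s - 1‖) ^ r * ‖E α s‖)) := by gcongr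
      _ ≤ (((64 * C R * Real.exp B0) ^ m + m * (R + 2 * A)) * Real.exp (-(v / 4))) *
          (‖gaf N (fun j => -a j) s‖ * ((‖s‖ * ‖s - 1‖) ^ r * ‖E α s‖)) := by
          gcongr
          linarith
      _ = _ := by ring
  · have h1 := sum_mono hA hR h.hN hμ hσ hT hv
    linarith

end Pool.Agent.TH839.LD
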