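import Pool.Agent.TH839.LD.Fsm
import Pool.Agent.TH494.LD.Low
import Pool.Agent.TH839.UH.Fin

/-!
# Project LD: small values of the function give few zeros of all derivatives
-/

set_option autoImplicit false

open Complex MeasureTheory Filter Topology Set
open scoped ComplexConjugate

namespace Pool.Agent.TH839.LD

open Pool.Agent.W169.HF H353.E Pool.Agent.W355.UN Pool.Agent.TH839.UH

variable {m : ℕ} {B : ℝ → ℝ} {N θ : ℝ} {μ : Fin m → ℂ} {X L : ℂ → ℂ}

lemma fac_le (n : ℕ) (hn : 1 ≤ n) : (n.factorial : ℝ) * Real.exp n ≤ Real.exp 1 * n * (n : ℝ) ^ n := by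
  induction n, hn using Nat.le_induction with
  | base => simp
  | succ n hn ih =>
    have hn0 : (0 : ℝ) < n := by exact_mod_cast hn
    have h1 : Real.exp 1 * (n : ℝ) ^ (n + 1) ≤ ((n : ℝ) + 1) ^ (n + 1) := by
      have h2 : 1 ≤ (n + 1 : ℝ) * Real.log ((n + 1) / n) := by
        have h3 := Real.one_sub_inv_le_log_of_pos (x := ((n : ℝ) + 1) / n) (by positivity)
        have h4 : 1 - (((n : ℝ) + 1) / n)⁻¹ = 1 / (n + 1) := by
          field_simp
          ring
        rw [h4] at h3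
        calc (1 : ℝ) = (n + 1) * (1 / (n + 1)) := by field_simp
          _ ≤ _ := mul_le_mul_of_nonneg_left h3 (by positivity)
      have h5 : Real.exp 1 ≤ (((n : ℝ) + 1) / n) ^ (n + 1) := by
        have h6 : (((n : ℝ) + 1) / n) ^ (n + 1) = Real.exp ((n + 1 : ℝ) * Real.log ((n + 1) / n)) := by
          rw [mul_comm, Real.exp_mul, Real.exp_log (by positivity)]
          rw [show ((n : ℝ) + 1) = ((n + 1 : ℕ) : ℝ) by push_cast; rfl, Real.rpow_natCast]
        rw [h6]
        exact Real.exp_le_exp.2 h2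
      rw [div_pow, le_div_iff₀ (by positivity)] at h5
      exact h5
    have e1 : Real.exp ((n + 1 : ℕ) : ℝ) = Real.exp n * Real.exp 1 := by
      rw [← Real.exp_add]
      push_cast
      rfl
    rw [Nat.factorial_succ, e1]
    push_cast
    have h7 : 0 ≤ Real.exp 1 := (Real.exp_pos 1).le
    calc ((n : ℝ) + 1) * (n.factorial : ℝ) * (Real.exp n * Real.exp 1)
        = ((n : ℝ) + 1) * Real.exp 1 * ((n.factorial : ℝ) * Real.exp n) := by ring
      _ ≤ ((n : ℝ) + 1) * Real.exp 1 * (Real.exp 1 * n * (n : ℝ) ^ n) := by gcongr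
      _ = ((n : ℝ) + 1) * Real.exp 1 * (Real.exp 1 * (n : ℝ) ^ (n + 1)) := by ring
      _ ≤ ((n : ℝ) + 1) * Real.exp 1 * ((n : ℝ) + 1) ^ (n + 1) := by gcongr
      _ = _ := by ring

/-- Cauchy's estimate at distance `n / h` -/
lemma cauchy {f : ℂ → ℂ} (hf : Differentiable ℂ f) {P h A0 κ : ℝ} {u : ℂ} (hP : 0 ≤ P) (hh : 0 < h)
    (hu : 0 ≤ u.re) (n : ℕ) (hn : (n : ℝ) ≤ A0 * h) (hb : 3 * A0 * h ≤ Real.exp (κ * h)) (hκ : 0 ≤ κ)
    (hup : ∀ w : ℂ, ‖w - u‖ ≤ A0 → ‖f w‖ ≤ P * Real.exp (|w.re| * h + κ * h)) :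
    ‖iteratedDeriv n f u‖ ≤ P * h ^ n * Real.exp (u.re * h + 2 * κ * h) := by
  rcases Nat.eq_zero_or_pos n with h0 | h0
  · rw [h0, iteratedDeriv_zero, pow_zero, mul_one]
    have hA0 : 0 ≤ A0 := by
      by_contra hneg
      push Not at hneg
      have : A0 * h < 0 := mul_neg_of_neg_of_pos hneg hh
      have := Nat.cast_nonneg (α := ℝ) n
      linarith
    have h1 := hup u (by rw [sub_self, norm_zero]; exact hA0)
    rw [abs_of_nonneg hu] at h1
    refine h1.trans (mul_le_mul_of_nonneg_left (Real.exp_le_exp.2 ?_) hP)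
    have : 0 ≤ κ * h := by positivity
    linarith
  · have hn0 : (0 : ℝ) < n := by exact_mod_cast h0
    obtain ⟨r, hr⟩ : ∃ r : ℝ, r = n / h := ⟨_, rfl⟩
    have hr0 : 0 < r := by rw [hr]; positivity
    have hrA : r ≤ A0 := by rw [hr, div_le_iff₀ hh]; exact hn
    have hrh : r * h = n := by rw [hr]; field_simp
    have h1 := Complex.norm_iteratedDeriv_le_of_forall_mem_sphere_norm_le (c := u) (R := r)
      (C := P * Real.exp (u.re * h + n + κ * h)) n hr0 hf.diffContOnCl fun w hw => by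
        rw [mem_sphere_iff_norm] at hw
        refine (hup w (by rw [hw]; exact hrA)).trans ?_
        refine mul_le_mul_of_nonneg_left (Real.exp_le_exp.2 ?_) hP
        have h2 : |w.re| ≤ u.re + r := by
          have h3 := Complex.abs_re_le_norm (w - u)
          rw [hw, sub_re] at h3
          have h4 := abs_le.1 h3
          rw [abs_le]
          constructor <;> linarith [h4.1, h4.2]
        have h5 : |w.re| * h ≤ (u.re + r) * h := mul_le_mul_of_nonneg_right h2 hh.le
        have h6 : (u.re + r) * h = u.re * h + n := by rw [add_mul, hrh]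
        linarith
    refine h1.trans ?_
    have h2 := fac_le n h0
    have h3 : (n : ℝ) ^ n = r ^ n * h ^ n := by rw [← mul_pow, hrh]
    have h4 : Real.exp 1 * n ≤ Real.exp (κ * h) := by
      have h5 : Real.exp 1 ≤ 3 := by linarith [Real.exp_one_lt_d9]
      calc Real.exp 1 * n ≤ 3 * n := mul_le_mul_of_nonneg_right h5 hn0.le
        _ ≤ 3 * (A0 * h) := by linarith
        _ = 3 * A0 * h := by ring
        _ ≤ _ := hb
    rw [div_le_iff₀ (by positivity)]
    calc (n.factorial : ℝ) * (P * Real.exp (u.re * h + n + κ * h))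
        = ((n.factorial : ℝ) * Real.exp n) * (P * Real.exp (u.re * h + κ * h)) := by
          rw [show u.re * h + n + κ * h = n + (u.re * h + κ * h) by ring, Real.exp_add (n : ℝ)]
          ring
      _ ≤ (Real.exp 1 * n * (n : ℝ) ^ n) * (P * Real.exp (u.re * h + κ * h)) := by gcongr
      _ ≤ (Real.exp (κ * h) * (n : ℝ) ^ n) * (P * Real.exp (u.re * h + κ * h)) := by gcongr
      _ = P * h ^ n * Real.exp (u.re * h + 2 * κ * h) * r ^ n := by
          rw [h3, show u.re * h + 2 * κ * h = κ * h + (u.re * h + κ * h) by ring,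
            Real.exp_add (κ * h) (u.re * h + κ * h)]
          ring

theorem smallfew (m : ℕ) (B : ℝ → ℝ) (hB : 0 ≤ B 1) (δ ε : ℝ) (hδ : 0 < δ) (hδ1 : δ ≤ 1) (hε : 0 < ε) :
    ∃ κ W h0 : ℝ, 0 < κ ∧ ∀ (N : ℝ) (μ : Fin m → ℂ) (X L : ℂ → ℂ), UL m B N 1 μ X L →
      ∀ T : ℝ, h0 ≤ hc N μ T →
        (∀ T' : ℝ, |T' - T| ≤ W → ‖X (1 / 2 + (T' : ℂ) * I)‖ ≤ ‖X (7 / 2 + (T' : ℂ) * I)‖ *
          Real.exp (-(3 * hc N μ T') + κ * hc N μ T')) →
        ∀ n : ℕ, Few X n δ T (ε * hc N μ T) := by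
  obtain ⟨C, hC, HM⟩ := main_all hB
  obtain ⟨κc, hκc, HCNT⟩ := cnt δ ε hδ hδ1 hε
  obtain ⟨A0, hA0⟩ : ∃ A0 : ℝ, A0 = 5 * C := ⟨_, rfl⟩
  have hA0p : 0 < A0 := by rw [hA0]; positivity
  obtain ⟨κL, ℓL, hκL, HLOW⟩ := Pool.Agent.TH494.LD.low A0 κc hA0p hκc
  obtain ⟨κ1, R, ℓC, hκ1, hRW, HC⟩ := Pool.Agent.TH324.LD.cvx 0 4 (κc / 4) (10 + A0) le_rfl
    (by norm_num) (by norm_num) (by positivity) (by positivity)
  have hR0 : 0 ≤ R := by linarith
  have hm0 : (0 : ℝ) ≤ m := Nat.cast_nonneg m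
  obtain ⟨K0, hK0⟩ : ∃ K0 : ℝ, K0 = Kn m (B 1) 0 := ⟨_, rfl⟩
  have hK00 : 0 ≤ K0 := by rw [hK0]; exact Kn_nonneg hB 0
  have E : ∀ C k : ℝ, 0 < k → ∀ᶠ h : ℝ in atTop, C ≤ k * h := fun C k hk =>
    (tendsto_id.const_mul_atTop hk).eventually_ge_atTop C
  obtain ⟨h0, H0⟩ := eventually_atTop.1 ((E 2 1 one_pos).and ((E m 1 one_pos).and
    ((E ℓL 1 one_pos).and ((E ℓC 1 one_pos).and
    ((E (K0 * (1 + (2 * A0 + 12) ^ 2)) κL hκL).and
    ((E (K0 * (10 + R ^ 2) + 4 * (m * R)) (κ1 / 2) (by positivity)).and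
    ((E (K0 * (10 + R ^ 2)) 1 one_pos).and
    ((E (K0 * (1 + (10 + A0) ^ 2)) (κc / 4) (by positivity)).and
    (E (3 * A0) (κc ^ 2 / 32) (by positivity))))))))))
  refine ⟨min 1 (κ1 / 2), R, h0, by positivity, ?_⟩
  intro N μ X L h T hh0 hsm n
  obtain ⟨κ, hκ⟩ : ∃ κ : ℝ, κ = min 1 (κ1 / 2) := ⟨_, rfl⟩
  rw [← hκ] at hsm
  have hκ0 : 0 < κ := by rw [hκ]; positivity
  have hκo : κ ≤ 1 := by rw [hκ]; exact min_le_left _ _
  have hκκ : κ ≤ κ1 / 2 := by rw [hκ]; exact min_le_right _ _
  obtain ⟨h', hh'⟩ : ∃ h' : ℝ, h' = hc N μ T := ⟨_, rfl⟩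
  rw [← hh'] at hh0 ⊢
  obtain ⟨d1, d2, d3, d4, d5, d6, d7, d8, d9⟩ := H0 h' hh0
  rw [one_mul] at d1 d2 d3 d4 d7
  have hh2 : 0 < h' := by linarith
  have hne2 : ∀ s : ℂ, 2 < s.re → iteratedDeriv n X s ≠ 0 := fun s hs =>
    ((steps' h le_rfl n).2.2 s (by linarith)).1
  rcases le_total (A0 * h') (n : ℝ) with hn | hn
  · -- many derivatives: no zeros
    intro S hS
    have hSe : S = ∅ := by
      rw [Finset.eq_empty_iff_forall_notMem]
      intro s hs
      obtain ⟨s1, s2, s3⟩ := hS s hs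
      have h1 := (HM m N 1 μ X L h le_rfl 0 n s le_rfl ?_ (by rw [heat_zero_time X h.slow]; exact s1)).1
      · linarith
      · rw [zero_mul, add_zero]
        refine le_trans ?_ hn
        have h2 : Real.log (W355.UN.cond N μ s.im) = 2 * hc N μ s.im := by
          unfold hc
          ring
        rw [h2, hA0]
        have h3 := (hc_near h.hN μ (T := T) (T1 := s.im) s3).1
        rw [← hh'] at h3
        have h4 : (m : ℝ) + 2 * hc N μ s.im ≤ 5 * h' := by linarith
        calc _ ≤ C * (5 * h') := mul_le_mul_of_nonneg_left h4 hC.le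
          _ = _ := by ring
    rw [hSe, Finset.sum_empty]
    positivity
  · obtain ⟨Q, hQ⟩ : ∃ Q : ℝ, Q = ‖X (7 / 2 + (T : ℂ) * I)‖ := ⟨_, rfl⟩
    have hQ0 : 0 < Q := by rw [hQ]; exact norm_pos_iff.2 (prf h le_rfl 0 T).1
    obtain ⟨P, hP⟩ : ∃ P : ℝ, P = Q * Real.exp (-(3 * h')) := ⟨_, rfl⟩
    have hP0 : 0 < P := by rw [hP]; positivity
    have hPe : ∀ x : ℝ, Q * Real.exp x = P * Real.exp (x + 3 * h') := by
      intro x
      rw [hP, mul_assoc, ← Real.exp_add]
      congr 2
      ring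
    obtain ⟨f, hf⟩ : ∃ f : ℂ → ℂ, f = fun u => X (1 / 2 + (T : ℂ) * I + u) := ⟨_, rfl⟩
    have hfd : Differentiable ℂ f := by
      rw [hf]
      exact h.slow.1.comp (by fun_prop)
    have hfi : ∀ k : ℕ, iteratedDeriv k f = fun u => iteratedDeriv k X (1 / 2 + (T : ℂ) * I + u) := by
      intro k
      rw [hf]
      exact iteratedDeriv_comp_const_add k X _
    obtain ⟨-, -, pu, pl⟩ := prf h le_rfl 0 T
    simp only [iteratedDeriv_zero] at pu pl
    rw [← hQ, ← hh', ← hK0] at pu pl
    have pu' : ∀ u : ℂ, ‖f u‖ ≤ P * Real.exp (h' * max |u.re| 3 + K0 * (1 + ‖u‖ ^ 2)) := by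
      intro u
      rw [hf]
      refine (pu u).trans (le_of_eq ?_)
      rw [hPe]
      congr 2
      ring
    have pl' : ∀ u : ℂ, 3 ≤ u.re → P * Real.exp (h' * u.re - K0 * (1 + ‖u‖ ^ 2)) ≤ ‖f u‖ := by
      intro u hu
      rw [hf]
      refine le_trans (le_of_eq ?_) (pl u hu)
      rw [hPe]
      congr 2
      ring
    have hsq : ∀ (u : ℂ) (r : ℝ), ‖u‖ ≤ r → K0 * (1 + ‖u‖ ^ 2) ≤ K0 * (1 + r ^ 2) := by
      intro u r hu
      have := pow_le_pow_left₀ (norm_nonneg u) hu 2
      exact mul_le_mul_of_nonneg_left (by linarith) hK00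
    -- convexity
    have CV := HC h' P f d4 hP0 hfd (fun u => by rw [hf]; exact sym h T u) ?_ ?_ ?_
    · -- the upper bound
      have UP : ∀ w : ℂ, ‖w‖ ≤ 10 + A0 → ‖f w‖ ≤ P * Real.exp (|w.re| * h' + κc / 4 * h') := by
        intro w hw
        rcases le_total |w.re| 3 with h1 | h1
        · have h2 := CV w h1 ((Complex.abs_im_le_norm w).trans hw)
          rw [max_eq_left (abs_nonneg w.re)] at h2
          exact h2
        · refine (pu' w).trans (mul_le_mul_of_nonneg_left (Real.exp_le_exp.2 ?_) hP0.le)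
          rw [max_eq_left h1]
          have := hsq w _ hw
          linarith
      have hquad : 3 * A0 * h' ≤ Real.exp (κc / 4 * h') := by
        have h1 := Real.quadratic_le_exp_of_nonneg (x := κc / 4 * h') (by positivity)
        have h2 : 3 * A0 * h' ≤ κc ^ 2 / 32 * h' * h' := mul_le_mul_of_nonneg_right d9 hh2.le
        have h3 : (κc / 4 * h') ^ 2 / 2 = κc ^ 2 / 32 * h' * h' := by ring
        have h4 : 0 < κc / 4 * h' := by positivity
        linarith
      have hup : ∀ u : ℂ, 0 ≤ u.re → ‖u‖ ≤ 10 →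
          ‖iteratedDeriv n f u‖ ≤ P * h' ^ n * Real.exp (h' * u.re + κc * h') := by
        intro u hu1 hu2
        have h1 := cauchy hfd hP0.le hh2 hu1 n hn hquad (by positivity) fun w hw => UP w (by
          have := norm_add_le (w - u) u
          rw [sub_add_cancel] at this
          linarith)
        refine h1.trans (mul_le_mul_of_nonneg_left (Real.exp_le_exp.2 ?_) (by positivity))
        have : 0 < κc * h' := by positivity
        have e1 : 2 * (κc / 4) * h' = κc * h' / 2 := by ring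
        linarith
      have hlow := HLOW h' P n f d3 hP0 hn hfd (fun u hu => by
          rw [hfi]
          exact hne2 _ (by simp; linarith)) (fun u hu => by
          refine (pu' u).trans (mul_le_mul_of_nonneg_left (Real.exp_le_exp.2 ?_) hP0.le)
          have := hsq u _ hu
          linarith) (fun u hu1 hu2 => by
          refine le_trans (mul_le_mul_of_nonneg_left (Real.exp_le_exp.2 ?_) hP0.le) (pl' u hu1)
          have := hsq u _ hu2
          linarith)
      have hcnt := HCNT h' (P * h' ^ n) (iteratedDeriv n f) (by linarith) (by positivity)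
        ((hfd.contDiff (n := ⊤)).differentiable_iteratedDeriv n (by exact_mod_cast WithTop.coe_lt_top _))
        hup hlow
      intro S hS
      classical
      have hinj : Set.InjOn (fun z : ℂ => z - (1 / 2 + (T : ℂ) * I)) (S : Set ℂ) := fun a _ b _ h =>
        sub_left_injective h
      have h1 := hcnt (S.image fun z => z - (1 / 2 + (T : ℂ) * I)) (by
        intro z hz
        rw [Finset.mem_image] at hz
        obtain ⟨s, hs, rfl⟩ := hz
        obtain ⟨s1, s2, s3⟩ := hS s hs
        have er : (s - (1 / 2 + (T : ℂ) * I)).re = s.re - 1 / 2 := by simp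
        have ei : (s - (1 / 2 + (T : ℂ) * I)).im = s.im - T := by simp
        rw [hfi, er, ei]
        simp only [add_sub_cancel]
        refine ⟨s1, by linarith, ?_, s3⟩
        by_contra hcon
        push Not at hcon
        exact hne2 s (by linarith) s1)
      rw [Finset.sum_image hinj] at h1
      refine le_trans (le_of_eq ?_) h1
      refine Finset.sum_congr rfl fun s _ => ?_
      rw [hfi, ord_shift (iter_diff h n) (iter_ne h le_rfl n)]
      simp
    · intro u hu1 hu2
      have p1 := near h le_rfl T hu1 hu2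
      rw [← hQ, ← hK0, hPe] at p1
      have e : f u = X (1 / 2 + (T : ℂ) * I + u) := by rw [hf]
      rw [e]
      refine p1.trans (mul_le_mul_of_nonneg_left (Real.exp_le_exp.2 ?_) hP0.le)
      linarith
    · intro u hu1 hu2
      have p1 := hsm (T + u.im) (by rw [add_sub_cancel_left]; exact hu2)
      have e1 : (1 / 2 + ((T + u.im : ℝ) : ℂ) * I : ℂ) = 1 / 2 + (T : ℂ) * I + u := by
        have : u = (u.im : ℂ) * I := by
          conv_lhs => rw [← Complex.re_add_im u, hu1]
          simp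
        conv_rhs => rw [this]
        push_cast
        ring
      have e : f u = X (1 / 2 + (T : ℂ) * I + u) := by rw [hf]
      rw [e1] at p1
      rw [e]
      refine p1.trans ?_
      have p2 := near h le_rfl T (R := R) (u := 3 + (u.im : ℂ) * I) (by simp) (by simpa using hu2)
      have e2 : (1 / 2 + (T : ℂ) * I + (3 + (u.im : ℂ) * I) : ℂ) =
          7 / 2 + ((T + u.im : ℝ) : ℂ) * I := by
        push_cast
        ring
      rw [e2, ← hQ, ← hK0] at p2
      obtain ⟨a1, a2⟩ := hc_near h.hN μ (T := T) (T1 := T + u.im) (R := R) (by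
        rw [add_sub_cancel_left]; exact hu2)
      rw [← hh'] at a1 a2
      have e3 : κ * hc N μ (T + u.im) ≤ κ * h' + m * R := by
        have e4 := mul_le_mul_of_nonneg_left a1 hκ0.le
        have e5 : κ * (m * R) ≤ 1 * (m * R) := mul_le_mul_of_nonneg_right hκo (by positivity)
        linarith
      have e6 : κ * h' ≤ κ1 / 2 * h' := mul_le_mul_of_nonneg_right hκκ hh2.le
      calc _ ≤ Q * Real.exp (K0 * (10 + R ^ 2)) * Real.exp (-(3 * (h' - m * R)) + (κ * h' + m * R)) := by
            have := Real.exp_le_exp.2 (by linarith :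
              -(3 * hc N μ (T + u.im)) + κ * hc N μ (T + u.im) ≤
                -(3 * (h' - m * R)) + (κ * h' + m * R))
            gcongr
        _ = P * Real.exp (K0 * (10 + R ^ 2) + (-(3 * (h' - m * R)) + (κ * h' + m * R)) + 3 * h') := by
            rw [← hPe, mul_assoc, ← Real.exp_add]
        _ ≤ _ := by
            refine mul_le_mul_of_nonneg_left (Real.exp_le_exp.2 ?_) hP0.le
            linarith
    · intro u hu1 hu2
      have p1 := near h le_rfl T (R := R) (u := u) (by rw [hu1]; norm_num) hu2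
      rw [← hQ, ← hK0, hPe] at p1
      have e : f u = X (1 / 2 + (T : ℂ) * I + u) := by rw [hf]
      rw [e]
      refine p1.trans (mul_le_mul_of_nonneg_left (Real.exp_le_exp.2 ?_) hP0.le)
      have e7 : 0 < κ1 * h' := by positivity
      have e8 : 0 ≤ 4 * (m * R) := by positivity
      linarith

end Pool.Agent.TH839.LD
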