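import Pool.Agent.TH839.LD.Cmp
import Pool.Agent.TH839.LD.Sml

/-!
# Project LD: families of L-functions
-/

set_option autoImplicit false

open Complex Filter Topology Set
open scoped ComplexConjugate

namespace Pool.Agent.TH839.LD

open Pool.Agent.W169.HF H353.E Pool.Agent.W355.UN Pool.Agent.TH839.UH Pool.Agent.TH839.UH.EP
open Pool.Agent.TH839.UH.NF (B0 B0_nonneg)

variable {m r : ℕ} {N : ℝ} {a : Fin m → ℂ} {α : Nat.Primes → Fin m → ℂ} {X : ℂ → ℂ}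

/-- the analytic conductor -/
noncomputable def cd (N : ℝ) (a : Fin m → ℂ) (T : ℝ) : ℝ := N * ∏ j, (1 + ‖(T : ℂ) * I + a j‖)

/-- the gamma factor, with the factor `(s (s - 1)) ^ r` -/
noncomputable def gm (r : ℕ) (N : ℝ) (a : Fin m → ℂ) (s : ℂ) : ℂ :=
  (s * (s - 1)) ^ r * ((N : ℂ) ^ (s / 2) * ∏ j, Gammaℝ (s + a j))

lemma cd_eq (N : ℝ) (a : Fin m → ℂ) (T : ℝ) : W355.UN.cond N (fun j => -a j) T = cd N a T := by
  unfold W355.UN.cond cd
  simp only [sub_neg_eq_add]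

lemma hc_cd (N : ℝ) (a : Fin m → ℂ) (T : ℝ) : hc N (fun j => -a j) T = Real.log (cd N a T) / 2 := by
  unfold hc
  rw [cd_eq]

lemma one_le_cd (hN : 1 ≤ N) (a : Fin m → ℂ) (T : ℝ) : 1 ≤ cd N a T := by
  rw [← cd_eq]
  exact one_le_cond hN _ T

lemma gm_ne (h : HW m r N a α X) {c : ℝ} (hc0 : 0 < c) (ha : ∀ j, -1 / 2 + c ≤ (a j).re) (T : ℝ) :
    gm r N a (1 / 2 + (T : ℂ) * I) ≠ 0 := by
  obtain ⟨K, hK, H⟩ := cmp m c hc0
  obtain ⟨h1, -⟩ := H r N a α X h ha T _ rfl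
  intro h0
  unfold gm at h0
  rw [h0, norm_zero, mul_zero] at h1
  have h2 : 0 < ‖X (7 / 2 + (T : ℂ) * I)‖ := norm_pos_iff.2 (prf h.ul le_rfl 0 T).1
  have h3 : 0 < ‖X (7 / 2 + (T : ℂ) * I)‖ * Real.exp (-(3 * hc N (fun j => -a j) T)) := by positivity
  linarith

/-- few zeros give small values -/
theorem fam1 (m : ℕ) (A c β ε : ℝ) (hA : 0 ≤ A) (hc0 : 0 < c) (hβ : 0 ≤ β) (hε : 0 < ε) :
    ∃ δ κ W X0 : ℝ, 0 < δ ∧ 0 < κ ∧ ∀ (r : ℕ) (N : ℝ) (a : Fin m → ℂ)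
      (α : Nat.Primes → Fin m → ℂ) (X : ℂ → ℂ), HW m r N a α X → (∀ j, ‖a j‖ ≤ A) →
      (∀ j, -1 / 2 + c ≤ (a j).re) → ∀ (T : ℝ) (n : ℕ), X0 ≤ cd N a T →
        n * Real.log (Real.log (cd N a T)) ≤ (β + κ) * Real.log (cd N a T) →
        (∀ T' : ℝ, |T' - T| ≤ W * Real.log (cd N a T) → Few X n δ T' (κ * Real.log (cd N a T))) →
          ‖X (1 / 2 + (T : ℂ) * I) / gm r N a (1 / 2 + (T : ℂ) * I)‖ ≤ cd N a T ^ (β + ε) := by
  have hB := B0_nonneg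
  obtain ⟨Dc, HD⟩ := dec m A hA
  obtain ⟨δ, κ, W, h0, hδ, hκ, H⟩ := fewsmall m (4 * B0 + 2) (by linarith) Dc (2 * β) ε (by linarith) hε
  obtain ⟨K, hK, HK⟩ := cmp m c hc0
  have E : ∀ C k : ℝ, 0 < k → ∀ᶠ h : ℝ in atTop, C ≤ k * h := fun C k hk =>
    (tendsto_id.const_mul_atTop hk).eventually_ge_atTop C
  obtain ⟨x0, hx0⟩ := eventually_atTop.1 (Real.tendsto_log_atTop.eventually
    ((E 2 1 one_pos).and ((E (2 * h0) 1 one_pos).and (E (Real.log K) (ε / 2) (by positivity)))))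
  refine ⟨δ, κ / 2, W / 2, max x0 1, hδ, by positivity, ?_⟩
  intro r N a α X h hAa ha T n hX0 hn hfew
  obtain ⟨l, hl⟩ : ∃ l : ℝ, l = Real.log (cd N a T) := ⟨_, rfl⟩
  have hcd := hc_cd N a T
  obtain ⟨b1, b2, b3⟩ := hx0 _ ((le_max_left _ _).trans hX0)
  rw [← hl] at hcd b1 b2 b3 hn hfew
  rw [one_mul] at b1 b2
  have hl0 : 0 < l := by linarith
  have hn0 : (0 : ℝ) ≤ n := Nat.cast_nonneg n
  have R := H _ N (fun j => -a j) X _ h.ul rfl (HD r N a α X h hAa) n T (by rw [hcd]; linarith) ?_ ?_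
  · obtain ⟨hk, -⟩ := HK r N a α X h ha T _ rfl
    rw [norm_div]
    obtain ⟨g, hg⟩ : ∃ g : ℝ, g = ‖gm r N a (1 / 2 + (T : ℂ) * I)‖ := ⟨_, rfl⟩
    have hgp : 0 < g := by rw [hg]; exact norm_pos_iff.2 (gm_ne h hc0 ha T)
    have hk' : ‖X (7 / 2 + (T : ℂ) * I)‖ * Real.exp (-(3 * (l / 2))) ≤ K * g := by
      rw [hg, ← hcd]
      exact hk
    rw [← hg, div_le_iff₀ hgp]
    rw [hcd] at R
    have hcp : 0 < cd N a T := lt_of_lt_of_le one_pos (one_le_cd h.hN a T)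
    have e1 : cd N a T ^ (β + ε) = Real.exp ((β + ε) * l) := by
      rw [Real.rpow_def_of_pos hcp, ← hl, mul_comm]
    rw [e1]
    have hKl : K ≤ Real.exp (ε / 2 * l) := by
      rw [← Real.log_le_iff_le_exp hK]
      exact b3
    calc _ ≤ _ := R
      _ = (‖X (7 / 2 + (T : ℂ) * I)‖ * Real.exp (-(3 * (l / 2)))) *
          Real.exp ((2 * β + ε) * (l / 2)) := by
          rw [Real.exp_add]
          ring
      _ ≤ (Real.exp (ε / 2 * l) * g) * Real.exp ((2 * β + ε) * (l / 2)) := by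
          refine mul_le_mul_of_nonneg_right (hk'.trans ?_) (Real.exp_pos _).le
          exact mul_le_mul_of_nonneg_right hKl hgp.le
      _ = Real.exp (ε / 2 * l + (2 * β + ε) * (l / 2)) * g := by
          rw [Real.exp_add]
          ring
      _ = _ := by
          congr 2
          ring
  · rw [hcd]
    have h1 : Real.log (l / 2) ≤ Real.log l := Real.log_le_log (by linarith) (by linarith)
    calc (n : ℝ) * Real.log (l / 2) ≤ n * Real.log l := mul_le_mul_of_nonneg_left h1 hn0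
      _ ≤ _ := hn
      _ = _ := by ring
  · rw [hcd]
    intro T' hT'
    refine (hfew T' (hT'.trans (le_of_eq (by ring)))).mono le_rfl (le_of_eq (by ring))

/-- small values give few zeros -/
theorem fam2 (m : ℕ) (c ε δ : ℝ) (hc0 : 0 < c) (hε : 0 < ε) (hδ : 0 < δ) :
    ∃ κ W X0 : ℝ, 0 < κ ∧ ∀ (r : ℕ) (N : ℝ) (a : Fin m → ℂ)
      (α : Nat.Primes → Fin m → ℂ) (X : ℂ → ℂ), HW m r N a α X →
      (∀ j, -1 / 2 + c ≤ (a j).re) → ∀ T : ℝ, X0 ≤ cd N a T →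
        (∀ T' : ℝ, |T' - T| ≤ W →
          ‖X (1 / 2 + (T' : ℂ) * I) / gm r N a (1 / 2 + (T' : ℂ) * I)‖ ≤ cd N a T ^ κ) →
        ∀ n : ℕ, Few X n δ T (ε * Real.log (cd N a T)) := by
  have hB := B0_nonneg
  obtain ⟨κ, W', h0, hκ, H⟩ := smallfew m (fun _ => 4 * B0 + 2) (by linarith) (min δ 1) (2 * ε)
    (by positivity) (min_le_right _ _) (by positivity)
  obtain ⟨W, hW⟩ : ∃ W : ℝ, W = max W' 0 := ⟨_, rfl⟩
  have hWW : W' ≤ W := by rw [hW]; exact le_max_left _ _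
  have hW0 : 0 ≤ W := by rw [hW]; exact le_max_right _ _
  obtain ⟨K, hK, HK⟩ := cmp m c hc0
  have hm0 : (0 : ℝ) ≤ m := Nat.cast_nonneg m
  have E : ∀ C k : ℝ, 0 < k → ∀ᶠ h : ℝ in atTop, C ≤ k * h := fun C k hk =>
    (tendsto_id.const_mul_atTop hk).eventually_ge_atTop C
  obtain ⟨x0, hx0⟩ := eventually_atTop.1 (Real.tendsto_log_atTop.eventually
    ((E (2 * h0) 1 one_pos).and (E (Real.log K + κ * (m * W)) (κ / 4) (by positivity))))
  refine ⟨κ / 4, W, x0, by positivity, ?_⟩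
  intro r N a α X h ha T hX0 hsm n
  obtain ⟨l, hl⟩ : ∃ l : ℝ, l = Real.log (cd N a T) := ⟨_, rfl⟩
  have hcd := hc_cd N a T
  obtain ⟨b1, b2⟩ := hx0 _ hX0
  rw [← hl] at hcd b1 b2 ⊢
  rw [one_mul] at b1
  have hcp : 0 < cd N a T := lt_of_lt_of_le one_pos (one_le_cd h.hN a T)
  have hl0 : 0 ≤ l := by rw [hl]; exact Real.log_nonneg (one_le_cd h.hN a T)
  have R := H N (fun j => -a j) X _ h.ul T (by rw [hcd]; linarith) ?_ n
  · rw [hcd] at R
    exact R.mono (min_le_left _ _) (le_of_eq (by ring))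
  · intro T' hT'
    obtain ⟨-, hk⟩ := HK r N a α X h ha T' _ rfl
    have hs := hsm T' (hT'.trans hWW)
    have hgp : 0 < ‖gm r N a (1 / 2 + (T' : ℂ) * I)‖ := norm_pos_iff.2 (gm_ne h hc0 ha T')
    rw [norm_div, div_le_iff₀ hgp] at hs
    have e1 : cd N a T ^ (κ / 4) = Real.exp (κ / 4 * l) := by
      rw [Real.rpow_def_of_pos hcp, ← hl, mul_comm]
    rw [e1] at hs
    have hnr := (hc_near h.hN (fun j => -a j) (T := T) (T1 := T') (R := W) (hT'.trans hWW)).2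
    rw [hcd] at hnr
    obtain ⟨h1, hh1⟩ : ∃ h1 : ℝ, h1 = hc N (fun j => -a j) T' := ⟨_, rfl⟩
    rw [← hh1] at hnr hk ⊢
    calc ‖X (1 / 2 + (T' : ℂ) * I)‖ ≤ Real.exp (κ / 4 * l) * ‖gm r N a (1 / 2 + (T' : ℂ) * I)‖ := hs
      _ ≤ Real.exp (κ / 4 * l) * (Real.exp (Real.log K) *
          (‖X (7 / 2 + (T' : ℂ) * I)‖ * Real.exp (-(3 * h1)))) := by
          rw [Real.exp_log hK]
          exact mul_le_mul_of_nonneg_left hk (Real.exp_pos _).le
      _ = ‖X (7 / 2 + (T' : ℂ) * I)‖ *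
          Real.exp (κ / 4 * l + Real.log K + -(3 * h1)) := by
          rw [Real.exp_add, Real.exp_add]
          ring
      _ ≤ _ := by
          refine mul_le_mul_of_nonneg_left (Real.exp_le_exp.2 ?_) (norm_nonneg _)
          have h2 := mul_le_mul_of_nonneg_left hnr hκ.le
          have h3 : κ * (l / 2 - m * W) = κ / 4 * l + κ / 4 * l - κ * (m * W) := by ring
          linarith

lemma cd_shift (hN : 1 ≤ N) (a : Fin m → ℂ) {T T1 R : ℝ} (h : |T1 - T| ≤ R) :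
    Real.log (cd N a T1) ≤ Real.log (cd N a T) + m * Real.log (1 + R) ∧
      Real.log (cd N a T) - m * Real.log (1 + R) ≤ Real.log (cd N a T1) := by
  have hm : (0 : ℝ) ≤ m := Nat.cast_nonneg m
  have h1 := hc_shift hN (fun j => -a j) T (T1 - T)
  have h2 := hc_shift hN (fun j => -a j) T1 (T - T1)
  rw [add_sub_cancel, hc_cd, hc_cd] at h1 h2
  rw [abs_sub_comm] at h2
  have h3 : Real.log (1 + |T1 - T|) ≤ Real.log (1 + R) :=
    Real.log_le_log (by positivity) (by linarith)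
  have h4 := mul_le_mul_of_nonneg_left h3 hm
  constructor <;> linarith

end Pool.Agent.TH839.LD
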