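import Pool.Agent.TH839.LD.Path

/-!
# Project LD: few zeros of a derivative give small values of the function
-/

set_option autoImplicit false

open Complex MeasureTheory Filter Topology Set
open scoped ComplexConjugate

namespace Pool.Agent.TH839.LD

open Pool.Agent.W169.HF H353.E Pool.Agent.W355.UN Pool.Agent.TH839.UH

variable {m : ℕ} {B : ℝ → ℝ} {N θ : ℝ} {μ : Fin m → ℂ} {X L : ℂ → ℂ}

/-- at most `ν` zeros `s` of the `n`-th derivative with `Re s ≥ 1/2 + δ`, `|Im s - T| ≤ 1` -/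
def Few (X : ℂ → ℂ) (n : ℕ) (δ T ν : ℝ) : Prop := ∀ S : Finset ℂ,
  (∀ s ∈ S, iteratedDeriv n X s = 0 ∧ 1 / 2 + δ ≤ s.re ∧ |s.im - T| ≤ 1) →
    ∑ s ∈ S, (analyticOrderNatAt (iteratedDeriv n X) s : ℝ) ≤ ν

lemma Few.mono {X : ℂ → ℂ} {n : ℕ} {δ δ' T ν ν' : ℝ} (h : Few X n δ T ν) (hδ : δ ≤ δ') (hν : ν ≤ ν') :
    Few X n δ' T ν' := fun S hS =>
  (h S fun s hs => ⟨(hS s hs).1, by linarith [(hS s hs).2.1], (hS s hs).2.2⟩).trans hν

lemma few_win {X : ℂ → ℂ} {n : ℕ} {δ y ν : ℝ} (h : ∀ T' : ℝ, |T' - y| ≤ 20 → Few X n δ T' ν)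
    (S : Finset ℂ) (hS : ∀ s ∈ S, iteratedDeriv n X s = 0 ∧ 1 / 2 + δ ≤ s.re ∧ |s.im - y| ≤ 20) :
    ∑ s ∈ S, (analyticOrderNatAt (iteratedDeriv n X) s : ℝ) ≤ 21 * ν := by
  classical
  obtain ⟨k, hk⟩ : ∃ k : ℂ → ℕ, k = fun s => ⌊(s.im - y + 21) / 2⌋₊ := ⟨_, rfl⟩
  have hfl : ∀ s ∈ S, (k s : ℝ) ≤ (s.im - y + 21) / 2 ∧ (s.im - y + 21) / 2 < k s + 1 := by
    intro s hs
    have h1 := abs_le.1 (hS s hs).2.2
    rw [hk]
    exact ⟨Nat.floor_le (by linarith), Nat.lt_floor_add_one _⟩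
  have hmap : ∀ s ∈ S, k s ∈ Finset.range 21 := by
    intro s hs
    have h1 := abs_le.1 (hS s hs).2.2
    have h2 := (hfl s hs).1
    rw [Finset.mem_range]
    have h3 : (k s : ℝ) < 21 := by linarith
    exact_mod_cast h3
  rw [← Finset.sum_fiberwise_of_maps_to hmap]
  have h3 : ∀ j ∈ Finset.range 21, ∑ s ∈ S with k s = j,
      (analyticOrderNatAt (iteratedDeriv n X) s : ℝ) ≤ ν := by
    intro j hj
    have hj' : (j : ℝ) ≤ 20 := by
      have := Finset.mem_range.1 hj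
      exact_mod_cast Nat.le_of_lt_succ this
    have hj0 : (0 : ℝ) ≤ j := Nat.cast_nonneg j
    refine h (y - 20 + 2 * j) (by rw [abs_le]; constructor <;> linarith) _ fun s hs => ?_
    rw [Finset.mem_filter] at hs
    obtain ⟨hs1, hs2⟩ := hs
    obtain ⟨a1, a2⟩ := hfl s hs1
    rw [hs2] at a1 a2
    refine ⟨(hS s hs1).1, (hS s hs1).2.1, ?_⟩
    rw [abs_le]
    constructor <;> linarith
  calc _ ≤ ∑ j ∈ Finset.range 21, ν := Finset.sum_le_sum h3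
    _ = 21 * ν := by simp

lemma ord_shift {G : ℂ → ℂ} (hG : Differentiable ℂ G) (hne : ∃ u, G u ≠ 0) (b u0 : ℂ) :
    analyticOrderNatAt (fun u => G (b + u)) u0 = analyticOrderNatAt G (b + u0) := by
  have h := ord_tr hG hne one_ne_zero (E := fun _ => 1) (by fun_prop) (fun _ => one_ne_zero) (b := b) u0
  simp only [one_mul, mul_one] at h
  rw [add_comm b u0, ← h]
  congr 1
  funext u
  rw [add_comm]

lemma iter_ne (h : UL m B N θ μ X L) (hθ : θ ≤ 1) (n : ℕ) : ∃ z, iteratedDeriv n X z ≠ 0 :=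
  ⟨_, (prf h hθ n 0).2.1⟩

lemma iter_diff (h : UL m B N θ μ X L) (n : ℕ) : Differentiable ℂ (iteratedDeriv n X) :=
  (h.slow.1.contDiff (n := ⊤)).differentiable_iteratedDeriv n (by exact_mod_cast WithTop.coe_lt_top _)

/-- few zeros near `1/2 + iy` give a bound for the `n`-th derivative -/
theorem fewb (x0 κ : ℝ) (hx0 : 0 < x0) (hx1 : x0 ≤ 1 / 2) (hκ : 0 < κ) : ∃ κ1 : ℝ, 0 < κ1 ∧ κ1 ≤ 1 ∧
    ∀ (m : ℕ) (B : ℝ → ℝ) (N : ℝ) (μ : Fin m → ℂ) (X L : ℂ → ℂ), UL m B N 1 μ X L →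
      ∀ (n : ℕ) (y : ℝ), 1 ≤ hc N μ y → 401 * Kn m (B 1) n ≤ κ1 * hc N μ y →
        (∀ T' : ℝ, |T' - y| ≤ 20 → Few X n (x0 / 4) T' (κ1 / 21 * hc N μ y)) →
        ‖iteratedDeriv n X (1 / 2 + (y : ℂ) * I + x0)‖ ≤ ‖iteratedDeriv n X (7 / 2 + (y : ℂ) * I)‖ *
          Real.exp (hc N μ y * (x0 - 3) + κ * hc N μ y) := by
  obtain ⟨κ1, hκ1, hκ2, H⟩ := bl x0 κ hx0 hx1 hκ
  refine ⟨κ1, hκ1, hκ2, ?_⟩
  intro m B N μ X L h n y hh hK hfew
  obtain ⟨Q, hQ⟩ : ∃ Q : ℝ, Q = ‖iteratedDeriv n X (7 / 2 + (y : ℂ) * I)‖ := ⟨_, rfl⟩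
  obtain ⟨e, he⟩ : ∃ e : ℝ, e = hc N μ y := ⟨_, rfl⟩
  obtain ⟨-, hne, hup, hlo⟩ := prf h le_rfl n y
  have hQ0 : 0 < Q := by rw [hQ]; exact norm_pos_iff.2 hne
  rw [← hQ, ← he] at hup hlo ⊢
  rw [← he] at hh hK hfew
  have hKn := Kn_nonneg (m := m) (h.hB 1) n
  have hd := iter_diff h n
  have hkk : ∀ u : ℂ, ‖u‖ ≤ 20 → Kn m (B 1) n * (1 + ‖u‖ ^ 2) ≤ κ1 * e := by
    intro u hu
    have h1 : ‖u‖ ^ 2 ≤ 20 ^ 2 := pow_le_pow_left₀ (norm_nonneg _) hu 2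
    have h2 : Kn m (B 1) n * (1 + ‖u‖ ^ 2) ≤ Kn m (B 1) n * 401 :=
      mul_le_mul_of_nonneg_left (by linarith) hKn
    linarith
  have R := H e (Q * Real.exp (-(3 * e))) (fun u => iteratedDeriv n X (1 / 2 + (y : ℂ) * I + u)) hh
    (by positivity) (hd.comp (by fun_prop)) ?_ ?_ ?_ x0 le_rfl (by linarith)
  · refine R.trans (le_of_eq ?_)
    rw [mul_assoc, ← Real.exp_add]
    congr 2
    ring
  · intro u hu hu2
    refine (hup u).trans ?_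
    rw [mul_assoc, ← Real.exp_add, abs_of_nonneg hu]
    refine mul_le_mul_of_nonneg_left (Real.exp_le_exp.2 ?_) hQ0.le
    have := hkk u hu2
    linarith
  · intro u hu hu2
    refine le_trans ?_ (hlo u hu)
    rw [mul_assoc, ← Real.exp_add]
    refine mul_le_mul_of_nonneg_left (Real.exp_le_exp.2 ?_) hQ0.le
    have := hkk u hu2
    linarith
  · intro S hS
    classical
    have hinj : Set.InjOn (fun z : ℂ => 1 / 2 + (y : ℂ) * I + z) (S : Set ℂ) := fun a _ b _ h =>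
      add_left_cancel h
    have h1 := few_win hfew (S.image fun z => 1 / 2 + (y : ℂ) * I + z) (by
      intro s hs
      rw [Finset.mem_image] at hs
      obtain ⟨z, hz, rfl⟩ := hs
      obtain ⟨z1, z2, z3⟩ := hS z hz
      refine ⟨z1, ?_, ?_⟩
      · simp
        linarith
      · have e1 : (1 / 2 + (y : ℂ) * I + z).im - y = z.im := by simp
        rw [e1]
        exact (Complex.abs_im_le_norm z).trans z3)
    rw [Finset.sum_image hinj] at h1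
    calc _ = ∑ z ∈ S, (analyticOrderNatAt (iteratedDeriv n X) (1 / 2 + (y : ℂ) * I + z) : ℝ) := by
          refine Finset.sum_congr rfl fun z _ => ?_
          rw [ord_shift hd (iter_ne h le_rfl n)]
      _ ≤ _ := h1
      _ = κ1 * e := by ring

end Pool.Agent.TH839.LD
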