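import Pool.Agent.TH839.LD.Few
import Pool.Agent.TH324.LD.Cvx
import Pool.Agent.TH126.LD.Vint

/-!
# Project LD: few zeros of a derivative give small values of the function
-/

set_option autoImplicit false

open Complex MeasureTheory Filter Topology Set
open scoped ComplexConjugate

namespace Pool.Agent.TH839.LD

open Pool.Agent.W169.HF H353.E Pool.Agent.W355.UN Pool.Agent.TH839.UH

variable {m : ℕ} {B : ℝ → ℝ} {N θ : ℝ} {μ : Fin m → ℂ} {X L : ℂ → ℂ}

/-- vertical decay of `X` on the line `Re s = 7/2` and slow decrease of the conductor -/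
def Dec (Dc : ℝ → ℝ) {m : ℕ} (N : ℝ) (μ : Fin m → ℂ) (X : ℂ → ℂ) : Prop := ∀ R : ℝ, 0 ≤ R →
  0 ≤ Dc R ∧ ∀ σ T : ℝ, |σ| = 1 → -R ≤ σ * T → ∀ v : ℝ, 0 ≤ v →
    ‖X (7 / 2 + ((T + σ * v : ℝ) : ℂ) * I)‖ ≤
      Dc R * Real.exp (-(v / 4)) * ‖X (7 / 2 + (T : ℂ) * I)‖ ∧
    hc N μ T - Dc R ≤ hc N μ (T + σ * v)

/-- the size near `1/2 + iT` in terms of the size at `7/2 + iT` -/
lemma near (h : UL m B N θ μ X L) (hθ : θ ≤ 1) (T : ℝ) {R : ℝ} {u : ℂ} (h1 : |u.re| ≤ 3)
    (h2 : |u.im| ≤ R) : ‖X (1 / 2 + (T : ℂ) * I + u)‖ ≤ ‖X (7 / 2 + (T : ℂ) * I)‖ *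
      Real.exp (Kn m (B 1) 0 * (10 + R ^ 2)) := by
  obtain ⟨-, -, h3, -⟩ := prf h hθ 0 T
  have h4 := h3 u
  simp only [iteratedDeriv_zero] at h4
  rw [max_eq_right h1, sub_self, mul_zero, zero_add] at h4
  refine h4.trans ?_
  have hK := Kn_nonneg (m := m) (h.hB 1) 0
  refine mul_le_mul_of_nonneg_left (Real.exp_le_exp.2 (mul_le_mul_of_nonneg_left ?_ hK)) (norm_nonneg _)
  have e : ‖u‖ ^ 2 = u.re ^ 2 + u.im ^ 2 := by
    rw [← Complex.normSq_eq_norm_sq, Complex.normSq_apply]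
    ring
  have h5 : u.re ^ 2 ≤ 3 ^ 2 := sq_le_sq' (by linarith [(abs_le.1 h1).1]) (abs_le.1 h1).2
  have h6 : u.im ^ 2 ≤ R ^ 2 := sq_le_sq' (by linarith [(abs_le.1 h2).1]) (abs_le.1 h2).2
  rw [e]
  linarith

lemma hc_near (hN : 1 ≤ N) (μ : Fin m → ℂ) {T T1 R : ℝ} (h : |T1 - T| ≤ R) :
    hc N μ T1 ≤ hc N μ T + m * R ∧ hc N μ T - m * R ≤ hc N μ T1 := by
  have hm : (0 : ℝ) ≤ m := Nat.cast_nonneg m
  have h1 := hc_shift' hN μ T (T1 - T)
  have h2 := hc_shift' hN μ T1 (T - T1)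
  rw [add_sub_cancel] at h1 h2
  rw [abs_sub_comm] at h2
  have h3 : m * |T1 - T| ≤ m * R := mul_le_mul_of_nonneg_left h hm
  constructor <;> linarith

lemma sym (h : UL m B N θ μ X L) (T : ℝ) (u : ℂ) :
    ‖X (1 / 2 + (T : ℂ) * I + -conj u)‖ = ‖X (1 / 2 + (T : ℂ) * I + u)‖ := by
  obtain ⟨ε, hε, hfe⟩ := h.fe
  rw [hfe (1 / 2 + (T : ℂ) * I + u), norm_mul, hε, one_mul, Complex.norm_conj]
  congr 2
  simp only [map_add, map_mul, Complex.conj_ofReal, Complex.conj_I, map_div₀, map_one, map_ofNat]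
  ring

theorem fewsmall (m : ℕ) (b : ℝ) (hb : 0 ≤ b) (Dc : ℝ → ℝ) (α ε : ℝ) (hα : 0 ≤ α) (hε : 0 < ε) :
    ∃ δ κ W h0 : ℝ, 0 < δ ∧ 0 < κ ∧ ∀ (B : ℝ → ℝ) (N : ℝ) (μ : Fin m → ℂ) (X L : ℂ → ℂ),
      UL m B N 1 μ X L → B 1 = b → Dec Dc N μ X → ∀ (n : ℕ) (T : ℝ), h0 ≤ hc N μ T →
        n * Real.log (hc N μ T) ≤ (α + κ) * hc N μ T →
        (∀ T' : ℝ, |T' - T| ≤ W * hc N μ T → Few X n δ T' (κ * hc N μ T)) →
          ‖X (1 / 2 + (T : ℂ) * I)‖ ≤ ‖X (7 / 2 + (T : ℂ) * I)‖ *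
            Real.exp (-(3 * hc N μ T) + (α + ε) * hc N μ T) := by
  obtain ⟨x0, hx0⟩ : ∃ x0 : ℝ, x0 = min (1 / 2) (ε / 8) := ⟨_, rfl⟩
  have hx0p : 0 < x0 := by rw [hx0]; positivity
  have hx01 : x0 ≤ 1 / 2 := by rw [hx0]; exact min_le_left _ _
  have hx0ε : x0 ≤ ε / 8 := by rw [hx0]; exact min_le_right _ _
  obtain ⟨κ1, R, ℓ0, hκ1, hR1, HC⟩ := Pool.Agent.TH324.LD.cvx x0 4 (ε / 8) 1 hx0p.le (by linarith)
    (by norm_num) (by positivity) one_pos
  obtain ⟨κa, hκa⟩ : ∃ κa : ℝ, κa = min 1 (κ1 / 16) := ⟨_, rfl⟩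
  have hκap : 0 < κa := by rw [hκa]; positivity
  have hκa1 : κa ≤ 1 := by rw [hκa]; exact min_le_left _ _
  have hκaκ : κa ≤ κ1 / 16 := by rw [hκa]; exact min_le_right _ _
  obtain ⟨κ2, hκ2, hκ21, HB⟩ := fewb x0 κa hx0p hx01 hκap
  obtain ⟨D, hD⟩ : ∃ D : ℝ, D = Dc R := ⟨_, rfl⟩
  obtain ⟨τ, hτ, t1, t2, t3, t4, t5⟩ : ∃ τ : ℝ, 0 < τ ∧ 401 * (3888 * τ) ≤ κ2 / 4 ∧
      8 * m * τ ≤ 1 / 2 ∧ 3 * τ ≤ 1 / 4 ∧ 2 * (3888 * τ) ≤ κa / 4 ∧ 4 * τ ≤ ε / 8 := by
    obtain ⟨τ, hτ⟩ : ∃ τ : ℝ, τ = min (min (κ2 / (4 * 401 * 3888)) (1 / (16 * (m + 1))))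
      (min (min (1 / 12) (κa / (8 * 3888))) (ε / 32)) := ⟨_, rfl⟩
    have e1 : τ ≤ κ2 / (4 * 401 * 3888) := by
      rw [hτ]; exact (min_le_left _ _).trans (min_le_left _ _)
    have e2 : τ ≤ 1 / (16 * (m + 1)) := by
      rw [hτ]; exact (min_le_left _ _).trans (min_le_right _ _)
    have e3 : τ ≤ 1 / 12 := by
      rw [hτ]; exact (min_le_right _ _).trans ((min_le_left _ _).trans (min_le_left _ _))
    have e4 : τ ≤ κa / (8 * 3888) := by
      rw [hτ]; exact (min_le_right _ _).trans ((min_le_left _ _).trans (min_le_right _ _))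
    have e5 : τ ≤ ε / 32 := by
      rw [hτ]; exact (min_le_right _ _).trans (min_le_right _ _)
    have hm0 : (0 : ℝ) ≤ m := Nat.cast_nonneg m
    have e0 : 0 < τ := by rw [hτ]; positivity
    refine ⟨τ, e0, by linarith, ?_, by linarith, by linarith, by linarith⟩
    rw [le_div_iff₀ (by positivity)] at e2
    nlinarith
  have hR0 : 0 ≤ R := by linarith
  have hm0 : (0 : ℝ) ≤ m := Nat.cast_nonneg m
  have E : ∀ C k : ℝ, 0 < k → ∀ᶠ h : ℝ in atTop, C ≤ k * h := fun C k hk =>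
    (tendsto_id.const_mul_atTop hk).eventually_ge_atTop C
  obtain ⟨h0, H0⟩ := eventually_atTop.1 ((E 2 1 one_pos).and ((E (Real.exp ((α + 1) / τ)) 1 one_pos).and
    ((E (m * R) (1 / 4) (by norm_num)).and ((E D (1 / 4) (by norm_num)).and
    ((E (20 + R) 2 (by norm_num)).and ((E (401 * (1458 * (m * (18 + b)))) (κ2 / 4) (by positivity)).and
    ((E (m * (31 + b)) (1 / 4) (by norm_num)).and
    ((E (2 * (1458 * (m * (18 + b)))) (κa / 4) (by positivity)).and
    ((E (4 * D + Kn m b 0 * (10 + R ^ 2) + 3 * (m * R)) (κ1 / 2) (by positivity)).and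
    ((E ℓ0 1 one_pos).and (E (Kn m b 0 * (10 + R ^ 2)) 1 one_pos)))))))))))
  refine ⟨x0 / 4, min (min (κ2 / 42) (ε / 8)) 1, 62, h0, by positivity, by positivity, ?_⟩
  intro B N μ X L h hBb hdec n T hh0 hn hfew
  obtain ⟨κ, hκ⟩ : ∃ κ : ℝ, κ = min (min (κ2 / 42) (ε / 8)) 1 := ⟨_, rfl⟩
  rw [← hκ] at hn hfew
  have hκ0 : 0 < κ := by rw [hκ]; positivity
  have hκ42 : κ ≤ κ2 / 42 := by rw [hκ]; exact (min_le_left _ _).trans (min_le_left _ _)
  have hκε : κ ≤ ε / 8 := by rw [hκ]; exact (min_le_left _ _).trans (min_le_right _ _)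
  have hκo : κ ≤ 1 := by rw [hκ]; exact min_le_right _ _
  obtain ⟨h', hh'⟩ : ∃ h' : ℝ, h' = hc N μ T := ⟨_, rfl⟩
  rw [← hh'] at hh0 hn hfew ⊢
  obtain ⟨c1, c2, c3, c4, c5, c6, c7, c8, c9, c10, c11⟩ := H0 h' hh0
  rw [one_mul] at c1 c2 c10 c11
  have hh2 : 0 < h' := by linarith
  have hn0 : (0 : ℝ) ≤ n := Nat.cast_nonneg n
  -- n is small
  have hnτ : (n : ℝ) ≤ τ * h' := by
    have h1 : (α + 1) / τ ≤ Real.log h' := by
      rw [Real.le_log_iff_exp_le hh2]
      exact c2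
    have h2 : (n : ℝ) * ((α + 1) / τ) ≤ (α + 1) * h' := by
      calc (n : ℝ) * ((α + 1) / τ) ≤ n * Real.log h' := mul_le_mul_of_nonneg_left h1 hn0
        _ ≤ (α + κ) * h' := hn
        _ ≤ _ := mul_le_mul_of_nonneg_right (by linarith) hh2.le
    have h3 : (n : ℝ) * (α + 1) ≤ τ * h' * (α + 1) := by
      have e1 : (n : ℝ) * (α + 1) = τ * (n * ((α + 1) / τ)) := by
        field_simp
      rw [e1]
      calc _ ≤ τ * ((α + 1) * h') := mul_le_mul_of_nonneg_left h2 hτ.le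
        _ = _ := by ring
    exact le_of_mul_le_mul_right h3 (by linarith)
  have n1 : 401 * (3888 * (n : ℝ)) ≤ κ2 / 4 * h' := by
    calc 401 * (3888 * (n : ℝ)) ≤ 401 * (3888 * (τ * h')) := by linarith
      _ = 401 * (3888 * τ) * h' := by ring
      _ ≤ _ := mul_le_mul_of_nonneg_right t1 hh2.le
  have n2 : 8 * (n : ℝ) * m ≤ 1 / 2 * h' := by
    calc 8 * (n : ℝ) * m ≤ 8 * (τ * h') * m := by
          refine mul_le_mul_of_nonneg_right (by linarith) hm0
      _ = 8 * m * τ * h' := by ring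
      _ ≤ _ := mul_le_mul_of_nonneg_right t2 hh2.le
  have n3 : 3 * (n : ℝ) ≤ 1 / 4 * h' := by
    calc 3 * (n : ℝ) ≤ 3 * (τ * h') := by linarith
      _ = 3 * τ * h' := by ring
      _ ≤ _ := mul_le_mul_of_nonneg_right t3 hh2.le
  have n4 : 2 * (3888 * (n : ℝ)) ≤ κa / 4 * h' := by
    calc 2 * (3888 * (n : ℝ)) ≤ 2 * (3888 * (τ * h')) := by linarith
      _ = 2 * (3888 * τ) * h' := by ring
      _ ≤ _ := mul_le_mul_of_nonneg_right t4 hh2.le
  have n5 : 4 * (n : ℝ) ≤ ε / 8 * h' := by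
    calc 4 * (n : ℝ) ≤ 4 * (τ * h') := by linarith
      _ = 4 * τ * h' := by ring
      _ ≤ _ := mul_le_mul_of_nonneg_right t5 hh2.le
  obtain ⟨σ, hσ, hσT⟩ : ∃ σ : ℝ, |σ| = 1 ∧ 0 ≤ σ * T := by
    rcases le_total 0 T with h1 | h1
    · exact ⟨1, by norm_num, by linarith⟩
    · exact ⟨-1, by norm_num, by linarith⟩
  obtain ⟨Q, hQ⟩ : ∃ Q : ℝ, Q = ‖X (7 / 2 + (T : ℂ) * I)‖ := ⟨_, rfl⟩
  have hQ0 : 0 < Q := by rw [hQ]; exact norm_pos_iff.2 (prf h le_rfl 0 T).1
  rw [← hQ]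
  obtain ⟨hD0, hdec⟩ := hdec R hR0
  rw [← hD] at hD0 hdec
  -- the bound on the line x0
  have line : ∀ T1 : ℝ, |T1 - T| ≤ R → ‖X (1 / 2 + (T1 : ℂ) * I + x0)‖ ≤
      Q * Real.exp (-(3 * h')) * (32 * h') ^ n * Real.exp (x0 * h' + κ1 * h') := by
    intro T1 hT1
    obtain ⟨h1, hh1⟩ : ∃ h1 : ℝ, h1 = hc N μ T1 := ⟨_, rfl⟩
    obtain ⟨a1, a2⟩ := hc_near h.hN μ hT1
    rw [← hh', ← hh1] at a1 a2
    have hσT1 : -R ≤ σ * T1 := by
      have e1 : σ * T1 = σ * T + σ * (T1 - T) := by ring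
      have e2 : |σ * (T1 - T)| ≤ R := by rw [abs_mul, hσ, one_mul]; exact hT1
      have e3 := (abs_le.1 e2).1
      linarith
    have hdm := hdec σ T1 hσ hσT1
    have P := path Pool.Agent.TH126.LD.vint h (n := n) (V0 := 60 * h') hσ hD0 hx0p hx01 hκap hκa1 hh1
      (fun v hv => (hdm v hv).1) (fun v hv => by rw [hh1]; exact (hdm v hv).2)
      (by rw [hBb]; linarith) (by linarith) (by
        rw [hBb]
        unfold Kn
        have : κa / 4 * h' + κa / 4 * h' ≤ κa * h1 := by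
          have e1 : 1 / 2 * h' ≤ h1 := by linarith
          have e2 := mul_le_mul_of_nonneg_left e1 hκap.le
          linarith
        linarith) (by linarith) ?_
    · refine P.trans ?_
      have p1 := near h le_rfl T (R := R) (u := 3 + ((T1 - T : ℝ) : ℂ) * I) (by simp) (by simpa using hT1)
      have e1 : (1 / 2 + (T : ℂ) * I + (3 + ((T1 - T : ℝ) : ℂ) * I) : ℂ) = 7 / 2 + (T1 : ℂ) * I := by
        push_cast
        ring
      rw [e1, ← hQ, hBb] at p1
      have p2 : (16 * h1) ^ n ≤ (32 * h') ^ n := by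
        have : 0 ≤ 16 * h1 := by linarith
        exact pow_le_pow_left₀ this (by linarith) n
      have p3 : (x0 - 3 + 2 * κa) * h1 ≤ (x0 - 3) * h' + 3 * (m * R) + κ1 / 4 * h' := by
        have q1 : (3 - x0) * (h' - m * R) ≤ (3 - x0) * h1 := mul_le_mul_of_nonneg_left a2 (by linarith)
        have q2 : (3 - x0) * (m * R) ≤ 3 * (m * R) :=
          mul_le_mul_of_nonneg_right (by linarith) (by positivity)
        have q3 : 2 * κa * h1 ≤ 2 * (κ1 / 16) * (2 * h') := by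
          have q4 : h1 ≤ 2 * h' := by linarith
          have q5 : 0 ≤ h1 := by linarith
          have q6 : 2 * κa ≤ 2 * (κ1 / 16) := by linarith
          exact mul_le_mul q6 q4 q5 (by positivity)
        have q7 : (3 - x0) * (h' - m * R) = (3 - x0) * h' - (3 - x0) * (m * R) := by ring
        have q8 : (x0 - 3 + 2 * κa) * h1 = -((3 - x0) * h1) + 2 * κa * h1 := by ring
        have q9 : (x0 - 3) * h' = -((3 - x0) * h') := by ring
        have q10 : 2 * (κ1 / 16) * (2 * h') = κ1 / 4 * h' := by ring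
        linarith
      have p4 : D ≤ Real.exp D := by linarith [Real.add_one_le_exp D]
      have p5 : 0 < κ1 * h' := by positivity
      have h16 : 0 ≤ 16 * h1 := by linarith
      calc _ ≤ Real.exp D * Real.exp (3 * D) * (Q * Real.exp (Kn m b 0 * (10 + R ^ 2))) *
            (32 * h') ^ n * Real.exp ((x0 - 3) * h' + 3 * (m * R) + κ1 / 4 * h') := by
            have := Real.exp_le_exp.2 p3
            gcongr
        _ = Q * (32 * h') ^ n * Real.exp (D + 3 * D + Kn m b 0 * (10 + R ^ 2) +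
            ((x0 - 3) * h' + 3 * (m * R) + κ1 / 4 * h')) := by
            rw [Real.exp_add (D + 3 * D + Kn m b 0 * (10 + R ^ 2)), Real.exp_add (D + 3 * D),
              Real.exp_add D]
            ring
        _ ≤ Q * (32 * h') ^ n * Real.exp (-(3 * h') + (x0 * h' + κ1 * h')) := by
            refine mul_le_mul_of_nonneg_left (Real.exp_le_exp.2 ?_) (by positivity)
            have e2 : (x0 - 3) * h' = x0 * h' - 3 * h' := by ring
            have e3 : κ1 / 4 * h' = κ1 * h' / 4 := by ring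
            have e4 : κ1 / 2 * h' = κ1 * h' / 2 := by ring
            linarith
        _ = _ := by
            rw [Real.exp_add (-(3 * h'))]
            ring
    · intro v hv hvV
      have hy := (hdm v hv).2
      rw [← hh1] at hy
      have hy2 : h' / 2 ≤ hc N μ (T1 + σ * v) := by linarith
      refine HB m B N μ X L h n (T1 + σ * v) (by linarith) ?_ ?_
      · rw [hBb]
        unfold Kn
        have := mul_le_mul_of_nonneg_left hy2 hκ2.le
        linarith
      · intro T' hT'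
        refine (hfew T' ?_).mono le_rfl ?_
        · have e1 : T' - T = (T' - (T1 + σ * v)) + (T1 - T) + σ * v := by ring
          rw [e1]
          refine (abs_add_three _ _ _).trans ?_
          have e2 : |σ * v| ≤ 60 * h' := by
            rw [abs_mul, hσ, one_mul, abs_of_nonneg hv]
            exact hvV
          linarith
        · have e1 : κ * h' ≤ κ2 / 42 * h' := mul_le_mul_of_nonneg_right hκ42 hh2.le
          have e2 := mul_le_mul_of_nonneg_left hy2 hκ2.le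
          linarith
  have hP : 0 < Q * Real.exp (-(3 * h')) * (32 * h') ^ n := by positivity
  have hpow : 1 ≤ (32 * h') ^ n := one_le_pow₀ (by linarith)
  have hQP : ∀ x : ℝ, Q * Real.exp x ≤
      Q * Real.exp (-(3 * h')) * (32 * h') ^ n * Real.exp (x + 3 * h') := by
    intro x
    have e1 : Q * Real.exp (-(3 * h')) * (32 * h') ^ n * Real.exp (x + 3 * h') =
        Q * Real.exp x * (32 * h') ^ n := by
      have e2 : Real.exp (x + 3 * h') = Real.exp x * Real.exp (3 * h') := Real.exp_add _ _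
      have e3 : Real.exp (-(3 * h')) * Real.exp (3 * h') = 1 := by
        rw [← Real.exp_add, neg_add_cancel, Real.exp_zero]
      rw [e2]
      calc _ = Q * (32 * h') ^ n * Real.exp x * (Real.exp (-(3 * h')) * Real.exp (3 * h')) := by ring
        _ = _ := by rw [e3]; ring
    rw [e1]
    exact le_mul_of_one_le_right (by positivity) hpow
  have C := HC h' (Q * Real.exp (-(3 * h')) * (32 * h') ^ n)
    (fun u => X (1 / 2 + (T : ℂ) * I + u)) c10 hP (h.slow.1.comp (by fun_prop)) (fun u => sym h T u)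
    ?_ ?_ ?_ 0 (by simp) (by simp)
  · rw [add_zero, zero_re, abs_zero, max_eq_right hx0p.le] at C
    refine C.trans ?_
    have f1 : (32 * h') ^ n ≤ Real.exp ((α + ε / 8) * h' + ε / 8 * h') := by
      have f2 : (32 * h') ^ n = Real.exp (n * Real.log h' + n * Real.log 32) := by
        rw [← mul_add, ← Real.log_mul hh2.ne' (by norm_num), mul_comm (n : ℝ), Real.exp_mul,
          Real.exp_log (by positivity), Real.rpow_natCast, mul_comm]
      rw [f2]
      apply Real.exp_le_exp.2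
      have f3 : Real.log 32 ≤ 4 := by
        rw [Real.log_le_iff_le_exp (by norm_num)]
        have h9 : (2.7 : ℝ) ^ 4 ≤ Real.exp 1 ^ 4 := by
          have := Real.exp_one_gt_d9
          gcongr
          linarith
        rw [← Real.exp_nat_mul] at h9
        norm_num at h9 ⊢
        linarith
      have f4 : n * Real.log 32 ≤ n * 4 := mul_le_mul_of_nonneg_left f3 hn0
      have f5 : (α + κ) * h' ≤ (α + ε / 8) * h' := mul_le_mul_of_nonneg_right (by linarith) hh2.le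
      linarith
    calc _ ≤ Q * Real.exp (-(3 * h')) * Real.exp ((α + ε / 8) * h' + ε / 8 * h') *
          Real.exp (x0 * h' + ε / 8 * h') := by gcongr
      _ = Q * Real.exp (-(3 * h') + ((α + ε / 8) * h' + ε / 8 * h') + (x0 * h' + ε / 8 * h')) := by
          rw [Real.exp_add (-(3 * h') + ((α + ε / 8) * h' + ε / 8 * h')), Real.exp_add (-(3 * h'))]
          ring
      _ ≤ _ := by
          refine mul_le_mul_of_nonneg_left (Real.exp_le_exp.2 ?_) hQ0.le
          have f6 : x0 * h' ≤ ε / 8 * h' := mul_le_mul_of_nonneg_right hx0ε hh2.le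
          have f7 : 0 < ε * h' := by positivity
          have f8 : (α + ε / 8) * h' = α * h' + ε * h' / 8 := by ring
          have f9 : (α + ε) * h' = α * h' + ε * h' := by ring
          have f10 : ε / 8 * h' = ε * h' / 8 := by ring
          linarith
  · intro u hu1 hu2
    have p1 := near h le_rfl T hu1 hu2
    rw [← hQ, hBb] at p1
    refine (p1.trans (hQP _)).trans ?_
    refine mul_le_mul_of_nonneg_left (Real.exp_le_exp.2 ?_) hP.le
    linarith
  · intro u hu1 hu2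
    have p1 := line (T + u.im) (by rw [add_sub_cancel_left]; exact hu2)
    have e1 : (1 / 2 + ((T + u.im : ℝ) : ℂ) * I + x0 : ℂ) = 1 / 2 + (T : ℂ) * I + u := by
      have : u = (x0 : ℂ) + (u.im : ℂ) * I := by
        rw [← hu1]
        exact (Complex.re_add_im u).symm
      conv_rhs => rw [this]
      push_cast
      ring
    rw [e1] at p1
    exact p1
  · intro u hu1 hu2
    have p1 := near h le_rfl T (R := R) (u := u) (by rw [hu1]; norm_num) hu2
    rw [← hQ, hBb] at p1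
    refine (p1.trans (hQP _)).trans ?_
    refine mul_le_mul_of_nonneg_left (Real.exp_le_exp.2 ?_) hP.le
    have e4 : κ1 / 2 * h' = κ1 * h' / 2 := by ring
    have p5 : 0 < κ1 * h' := by positivity
    have p6 : 0 ≤ 3 * (m * R) := by positivity
    linarith

end Pool.Agent.TH839.LD
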