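import Pool.Agent.TH839.LD.Prf
import Pool.Agent.TH839.LD.Bl

/-!
# Project LD: from the derivative back to the function along a vertical line
-/

set_option autoImplicit false

open Complex MeasureTheory Filter Topology Set
open scoped ComplexConjugate

namespace Pool.Agent.TH839.LD

open Pool.Agent.W169.HF H353.E Pool.Agent.W355.UN Pool.Agent.TH839.UH

variable {m : ℕ} {B : ℝ → ℝ} {N θ : ℝ} {μ : Fin m → ℂ} {X L : ℂ → ℂ}

lemma Kn_mono {m : ℕ} {b : ℝ} {k n : ℕ} (h : k ≤ n) : Kn m b k ≤ Kn m b n := by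
  unfold Kn
  have : (k : ℝ) ≤ n := by exact_mod_cast h
  linarith

lemma Kn_nonneg {m : ℕ} {b : ℝ} (hb : 0 ≤ b) (n : ℕ) : 0 ≤ Kn m b n := by
  unfold Kn
  positivity

lemma aux4 {K x a : ℝ} (hK : 0 ≤ K) (h : 2 * K ≤ a) (h0 : 0 ≤ x) (h1 : x ≤ 1) :
    K * (1 + x ^ 2) ≤ a := by
  have h2 : x ^ 2 ≤ 1 := by nlinarith
  have h3 : K * (1 + x ^ 2) ≤ K * 2 := mul_le_mul_of_nonneg_left (by linarith) hK
  linarith

/-- vertical integration -/
theorem path (hvint : S_VINT) (h : UL m B N 1 μ X L) {σ T1 D x0 κa V0 h1 : ℝ} {n : ℕ} (hσ : |σ| = 1)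
    (hD : 0 ≤ D) (hx0 : 0 < x0) (hx1 : x0 ≤ 1 / 2) (hκa : 0 < κa) (hκ1 : κa ≤ 1)
    (h1d : h1 = hc N μ T1)
    (hdec : ∀ v : ℝ, 0 ≤ v → ‖X (7 / 2 + ((T1 + σ * v : ℝ) : ℂ) * I)‖ ≤
      D * Real.exp (-(v / 4)) * ‖X (7 / 2 + T1 * I)‖)
    (hmon : ∀ v : ℝ, 0 ≤ v → h1 - D ≤ hc N μ (T1 + σ * v))
    (hn1 : m * (31 + B 1) + 3 * n ≤ h1) (hn2 : 8 * n * m ≤ h1) (hn3 : 2 * Kn m (B 1) n ≤ κa * h1)
    (hV0 : 48 * h1 ≤ V0)
    (hin : ∀ v : ℝ, 0 ≤ v → v ≤ V0 →
      ‖iteratedDeriv n X (1 / 2 + ((T1 + σ * v : ℝ) : ℂ) * I + x0)‖ ≤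
      ‖iteratedDeriv n X (7 / 2 + ((T1 + σ * v : ℝ) : ℂ) * I)‖ *
        Real.exp (hc N μ (T1 + σ * v) * (x0 - 3) + κa * hc N μ (T1 + σ * v))) :
    ‖X (1 / 2 + T1 * I + x0)‖ ≤ D * Real.exp (3 * D) * ‖X (7 / 2 + T1 * I)‖ * (16 * h1) ^ n *
      Real.exp ((x0 - 3 + 2 * κa) * h1) := by
  have hm : (1 : ℝ) ≤ m := by exact_mod_cast h.hm
  have hB := h.hB 1
  have hn0 : (0 : ℝ) ≤ n := Nat.cast_nonneg n
  have hh1 : 1 ≤ h1 := by nlinarith
  have hh0 : 0 < h1 := by linarith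
  obtain ⟨Q, hQ⟩ : ∃ Q : ℝ, Q = ‖X (7 / 2 + T1 * I)‖ := ⟨_, rfl⟩
  have hQ0 : 0 ≤ Q := by rw [hQ]; exact norm_nonneg _
  rw [← hQ] at hdec ⊢
  -- the size on the line 7/2
  have key : ∀ k : ℕ, k ≤ n → ∀ v : ℝ, 0 ≤ v →
      ‖iteratedDeriv k X (7 / 2 + ((T1 + σ * v : ℝ) : ℂ) * I)‖ ≤
        D * Q * (2 * h1) ^ k * Real.exp (-(3 / 16 * v)) := by
    intro k hk v hv
    have hkn : (k : ℝ) ≤ n := by exact_mod_cast hk
    have hk0 : (0 : ℝ) ≤ k := Nat.cast_nonneg k
    have r1 := ratio h le_rfl k (T1 + σ * v)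
    have r2 := hdec v hv
    have r3 : hc N μ (T1 + σ * v) ≤ h1 + m * v := by
      have := hc_shift' h.hN μ T1 (σ * v)
      rw [abs_mul, hσ, one_mul, abs_of_nonneg hv, ← h1d] at this
      exact this
    have hc0 := hc_nonneg h.hN μ (T1 + σ * v)
    have r4 : hc N μ (T1 + σ * v) + m * (31 + B 1) + 3 * k ≤ 2 * h1 * (1 + m * v / (2 * h1)) := by
      have e : 2 * h1 * (1 + m * v / (2 * h1)) = 2 * h1 + m * v := by
        field_simp
      rw [e]
      linarith
    have r5 : (hc N μ (T1 + σ * v) + m * (31 + B 1) + 3 * k) ^ k ≤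
        (2 * h1) ^ k * Real.exp (v / 16) := by
      have r6 : 1 + m * v / (2 * h1) ≤ Real.exp (m * v / (2 * h1)) := by
        have := Real.add_one_le_exp (m * v / (2 * h1))
        linarith
      calc _ ≤ (2 * h1 * (1 + m * v / (2 * h1))) ^ k := by gcongr
        _ = (2 * h1) ^ k * (1 + m * v / (2 * h1)) ^ k := mul_pow _ _ _
        _ ≤ (2 * h1) ^ k * Real.exp (m * v / (2 * h1)) ^ k := by gcongr
        _ = (2 * h1) ^ k * Real.exp (k * (m * v / (2 * h1))) := by rw [← Real.exp_nat_mul]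
        _ ≤ _ := by
          refine mul_le_mul_of_nonneg_left (Real.exp_le_exp.2 ?_) (by positivity)
          have e : (k : ℝ) * (m * v / (2 * h1)) = (8 * k * m) / h1 * (v / 16) := by
            field_simp
            ring
          rw [e]
          have : (8 * (k : ℝ) * m) / h1 ≤ 1 := by
            rw [div_le_one hh0]
            refine le_trans ?_ hn2
            gcongr
          calc _ ≤ 1 * (v / 16) := by gcongr
            _ = _ := one_mul _
    calc _ ≤ ‖X (7 / 2 + ((T1 + σ * v : ℝ) : ℂ) * I)‖ *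
          (hc N μ (T1 + σ * v) + m * (31 + B 1) + 3 * k) ^ k := r1
      _ ≤ D * Real.exp (-(v / 4)) * Q * ((2 * h1) ^ k * Real.exp (v / 16)) := by gcongr
      _ = D * Q * (2 * h1) ^ k * (Real.exp (-(v / 4)) * Real.exp (v / 16)) := by ring
      _ = _ := by
        rw [← Real.exp_add]
        congr 2
        ring
  -- the bound on the path
  obtain ⟨M, hM⟩ : ∃ M : ℝ, M = D * Real.exp (3 * D) * Q * (2 * h1) ^ n *
      Real.exp ((x0 - 3 + 2 * κa) * h1) := ⟨_, rfl⟩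
  have hM0 : 0 ≤ M := by rw [hM]; positivity
  have hpath : ∀ v : ℝ, 0 ≤ v →
      ‖iteratedDeriv n X (1 / 2 + ((T1 + σ * v : ℝ) : ℂ) * I + x0)‖ ≤ M * Real.exp (-(1 / 8 * v)) := by
    intro v hv
    have k1 := key n le_rfl v hv
    rcases le_total v V0 with hvV | hvV
    · have k2 := hin v hv hvV
      have k3 := hmon v hv
      have k4 : hc N μ (T1 + σ * v) * (x0 - 3) + κa * hc N μ (T1 + σ * v) ≤
          (x0 - 3 + 2 * κa) * h1 + 3 * D := by
        have e : hc N μ (T1 + σ * v) * (x0 - 3) + κa * hc N μ (T1 + σ * v) =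
            -((3 - x0 - κa) * hc N μ (T1 + σ * v)) := by ring
        have k5 : (3 - x0 - κa) * (h1 - D) ≤ (3 - x0 - κa) * hc N μ (T1 + σ * v) :=
          mul_le_mul_of_nonneg_left k3 (by linarith)
        rw [e]
        have k6 : (3 - x0 - κa) * D ≤ 3 * D := mul_le_mul_of_nonneg_right (by linarith) hD
        have k7 : 0 ≤ κa * h1 := by positivity
        have k8 : (3 - x0 - κa) * (h1 - D) = (3 - x0 - κa) * h1 - (3 - x0 - κa) * D := by ring
        have k9 : (x0 - 3 + 2 * κa) * h1 = -((3 - x0 - κa) * h1) + κa * h1 := by ring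
        linarith
      calc _ ≤ _ := k2
        _ ≤ D * Q * (2 * h1) ^ n * Real.exp (-(3 / 16 * v)) *
            Real.exp ((x0 - 3 + 2 * κa) * h1 + 3 * D) := by gcongr
        _ ≤ D * Q * (2 * h1) ^ n * Real.exp (-(1 / 8 * v)) *
            Real.exp ((x0 - 3 + 2 * κa) * h1 + 3 * D) := by
            have : Real.exp (-(3 / 16 * v)) ≤ Real.exp (-(1 / 8 * v)) :=
              Real.exp_le_exp.2 (by linarith)
            gcongr
        _ = _ := by
            rw [hM, Real.exp_add]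
            ring
    · obtain ⟨-, -, k2, -⟩ := prf h le_rfl n (T1 + σ * v)
      have k3 := k2 (x0 : ℂ)
      have e1 : max |(x0 : ℂ).re| 3 - 3 = 0 := by
        rw [ofReal_re, abs_of_pos hx0, max_eq_right (by linarith), sub_self]
      rw [e1, mul_zero, zero_add] at k3
      have k4 : Kn m (B 1) n * (1 + ‖(x0 : ℂ)‖ ^ 2) ≤ κa * h1 := by
        rw [Complex.norm_real, Real.norm_eq_abs, abs_of_pos hx0]
        exact aux4 (Kn_nonneg (m := m) hB n) hn3 hx0.le (by linarith)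
      have k5 : Real.exp (-(3 / 16 * v)) ≤ Real.exp (-(1 / 8 * v)) * Real.exp (-(3 * h1)) := by
        rw [← Real.exp_add]
        apply Real.exp_le_exp.2
        linarith
      calc _ ≤ _ := k3
        _ ≤ D * Q * (2 * h1) ^ n * (Real.exp (-(1 / 8 * v)) * Real.exp (-(3 * h1))) *
            Real.exp (κa * h1) := by
            have := Real.exp_le_exp.2 k4
            have k6 := k1.trans (mul_le_mul_of_nonneg_left k5 (by positivity))
            gcongr
        _ = D * Q * (2 * h1) ^ n * Real.exp (-(1 / 8 * v)) * Real.exp (-(3 * h1) + κa * h1) := by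
            rw [Real.exp_add]
            ring
        _ ≤ D * Q * (2 * h1) ^ n * Real.exp (-(1 / 8 * v)) *
            Real.exp ((x0 - 3 + 2 * κa) * h1 + 3 * D) := by
            have : -(3 * h1) + κa * h1 ≤ (x0 - 3 + 2 * κa) * h1 + 3 * D := by nlinarith
            have := Real.exp_le_exp.2 this
            gcongr
        _ = _ := by
            rw [hM, Real.exp_add]
            ring
  obtain ⟨e, he⟩ : ∃ e : ℂ, e = σ * I := ⟨_, rfl⟩
  have he1 : ‖e‖ = 1 := by
    rw [he, norm_mul, Complex.norm_I, mul_one, Complex.norm_real, Real.norm_eq_abs, hσ]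
  have hse : ∀ v : ℝ, (1 / 2 + T1 * I + x0 + v * e : ℂ) = 1 / 2 + ((T1 + σ * v : ℝ) : ℂ) * I + x0 := by
    intro v
    rw [he]
    push_cast
    ring
  have hfin := hvint X n (1 / 2 + T1 * I + x0) e M (1 / 8) h.slow.1 he1 (by norm_num) hM0 ?_ ?_
  · refine hfin.trans (le_of_eq ?_)
    rw [hM, div_eq_mul_inv, ← inv_pow]
    norm_num
    have e2 : (16 * h1) ^ n = (2 * h1) ^ n * 8 ^ n := by
      rw [← mul_pow]
      congr 1
      ring
    rw [e2]
    ring
  · intro k hk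
    have hkn : k ≤ n := hk.le
    have hlim : Tendsto (fun v : ℝ => D * Q * (2 * h1) ^ k * Real.exp (-(3 / 16 * v)) *
        Real.exp (κa * h1)) atTop (𝓝 0) := by
      have l1 : Tendsto (fun v : ℝ => Real.exp (-(3 / 16 * v))) atTop (𝓝 0) := by
        have l2 : Tendsto (fun v : ℝ => 3 / 16 * v) atTop atTop :=
          tendsto_id.const_mul_atTop (by norm_num)
        exact Real.tendsto_exp_neg_atTop_nhds_zero.comp l2
      have l3 := (l1.const_mul (D * Q * (2 * h1) ^ k)).mul_const (Real.exp (κa * h1))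
      rwa [mul_zero, zero_mul] at l3
    refine squeeze_zero_norm' ?_ hlim
    filter_upwards [eventually_ge_atTop 0] with v hv
    rw [hse]
    have k1 := key k hkn v hv
    obtain ⟨-, -, k2, -⟩ := prf h le_rfl k (T1 + σ * v)
    have k3 := k2 (x0 : ℂ)
    have e1 : max |(x0 : ℂ).re| 3 - 3 = 0 := by
      rw [ofReal_re, abs_of_pos hx0, max_eq_right (by linarith), sub_self]
    rw [e1, mul_zero, zero_add] at k3
    have k4 : Kn m (B 1) k * (1 + ‖(x0 : ℂ)‖ ^ 2) ≤ κa * h1 := by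
      rw [Complex.norm_real, Real.norm_eq_abs, abs_of_pos hx0]
      have := Kn_mono (m := m) (b := B 1) hkn
      exact aux4 (Kn_nonneg (m := m) hB k) (by linarith) hx0.le (by linarith)
    have := Real.exp_le_exp.2 k4
    calc _ ≤ _ := k3
      _ ≤ _ := by gcongr
  · intro v hv
    rw [hse]
    exact hpath v hv

end Pool.Agent.TH839.LD
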