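import Pool.Agent.TH839.UH.Main

/-!
# Project LD: the profile of the derivatives in terms of the analytic conductor
-/

set_option autoImplicit false

open Complex MeasureTheory Filter Topology Set
open scoped ComplexConjugate

namespace Pool.Agent.TH839.LD

open Pool.Agent.W169.HF H353.E Pool.Agent.W355.UN Pool.Agent.TH839.UH

variable {m : ℕ} {B : ℝ → ℝ} {N θ : ℝ} {μ : Fin m → ℂ} {X L : ℂ → ℂ}

/-- half the logarithm of the analytic conductor at height `y` -/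
noncomputable def hc (N : ℝ) (μ : Fin m → ℂ) (y : ℝ) : ℝ := Real.log (W355.UN.cond N μ y) / 2

lemma hc_nonneg (hN : 1 ≤ N) (μ : Fin m → ℂ) (y : ℝ) : 0 ≤ hc N μ y :=
  div_nonneg (Real.log_nonneg (one_le_cond hN μ y)) (by norm_num)

lemma hc_eq (hN : 1 ≤ N) (μ : Fin m → ℂ) (y : ℝ) :
    hc N μ y = (Real.log N + ∑ j, Real.log (1 + ‖(y : ℂ) * I - μ j‖)) / 2 := by
  have hN0 : 0 < N := by linarith
  have hp : ∀ j, 0 < 1 + ‖(y : ℂ) * I - μ j‖ := fun j => by positivity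
  have hpp : 0 < ∏ j, (1 + ‖(y : ℂ) * I - μ j‖) := Finset.prod_pos fun j _ => hp j
  unfold hc W355.UN.cond
  rw [Real.log_mul hN0.ne' hpp.ne', Real.log_prod (fun j _ => (hp j).ne')]

lemma hc_shift (hN : 1 ≤ N) (μ : Fin m → ℂ) (y v : ℝ) :
    hc N μ (y + v) ≤ hc N μ y + m / 2 * Real.log (1 + |v|) := by
  rw [hc_eq hN, hc_eq hN]
  have h1 : ∀ j : Fin m, Real.log (1 + ‖((y + v : ℝ) : ℂ) * I - μ j‖) ≤
      Real.log (1 + ‖(y : ℂ) * I - μ j‖) + Real.log (1 + |v|) := by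
    intro j
    rw [← Real.log_mul (by positivity) (by positivity)]
    apply Real.log_le_log (by positivity)
    have e : ((y + v : ℝ) : ℂ) * I - μ j = (y * I - μ j) + v * I := by push_cast; ring
    have h2 := norm_add_le ((y : ℂ) * I - μ j) (v * I)
    rw [norm_mul (v : ℂ) I, Complex.norm_I, mul_one, Complex.norm_real, Real.norm_eq_abs] at h2
    rw [e]
    nlinarith [norm_nonneg ((y : ℂ) * I - μ j), abs_nonneg v]
  have h2 := Finset.sum_le_sum (s := (Finset.univ : Finset (Fin m))) fun j _ => h1 j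
  rw [Finset.sum_add_distrib (g := fun _ => Real.log (1 + |v|)), Finset.sum_const, Finset.card_univ,
    Fintype.card_fin, nsmul_eq_mul] at h2
  linarith

lemma log_one_add_le {v : ℝ} (hv : 0 ≤ v) : Real.log (1 + v) ≤ v := by
  have := Real.log_le_sub_one_of_pos (by linarith : 0 < 1 + v)
  linarith

lemma hc_shift' (hN : 1 ≤ N) (μ : Fin m → ℂ) (y v : ℝ) :
    hc N μ (y + v) ≤ hc N μ y + m * |v| := by
  have h1 := hc_shift hN μ y v
  have h2 := log_one_add_le (abs_nonneg v)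
  have hm : (0 : ℝ) ≤ m := Nat.cast_nonneg m
  have h3 : (m : ℝ) / 2 * Real.log (1 + |v|) ≤ m / 2 * |v| := by gcongr
  have h4 : 0 ≤ (m : ℝ) * |v| := by positivity
  linarith

lemma ell_up (hN : 1 ≤ N) (hμ : ∀ j, (μ j).re ≤ 1 / 2) (y : ℝ) :
    ell N μ y 6 ≤ hc N μ y + 7 * m := by
  rw [hc_eq hN]
  have hp : ∀ j, 0 < 1 + ‖(y : ℂ) * I - μ j‖ := fun j => by positivity
  have hlp := logpi
  rw [ell_eq]
  have h2 : ∀ j, -(Real.log Real.pi) / 2 +
      (logDeriv Gamma ((1 / 2 + 2 * (6 : ℝ) + y * I - μ j) / 2)).re / 2 ≤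
      1 / 2 * Real.log (1 + ‖(y : ℂ) * I - μ j‖) + 7 := fun j => by
    obtain ⟨_, hz4, hz⟩ := zre (s := 1 / 2 + 2 * (6 : ℝ) + y * I) (hμ j)
      (by rw [base_re]; norm_num)
    rw [base_re] at hz4
    obtain ⟨z, hzd⟩ : ∃ z : ℂ, z = (1 / 2 + 2 * (6 : ℝ) + y * I - μ j) / 2 := ⟨_, rfl⟩
    rw [← hzd] at hz hz4 ⊢
    have h3 := (Complex.abs_re_le_norm _).trans (dig_aux hz)
    rw [sub_re, Complex.log_re] at h3
    have h3' := (abs_le.mp h3).2
    have h6 : 0 < ‖z + 2‖ := by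
      have := re_le_norm (z + 2)
      rw [add_re, re_ofNat] at this
      linarith
    have h4 : ‖z + 2‖ ≤ (1 + ‖(y : ℂ) * I - μ j‖) * 9 := by
      have e : z + 2 = ((y : ℂ) * I - μ j) / 2 + ((9 / 4 + 6 : ℝ) : ℂ) := by
        rw [hzd]
        push_cast
        ring
      rw [e]
      refine (norm_add_le _ _).trans ?_
      rw [norm_div, Complex.norm_ofNat, Complex.norm_real, Real.norm_eq_abs,
        abs_of_pos (by norm_num)]
      nlinarith [norm_nonneg ((y : ℂ) * I - μ j)]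
    have h7 : Real.log ‖z + 2‖ ≤ Real.log (1 + ‖(y : ℂ) * I - μ j‖) + Real.log 9 := by
      rw [← Real.log_mul (hp j).ne' (by norm_num)]
      exact Real.log_le_log h6 h4
    have h8 : Real.log 9 ≤ 3 := by
      rw [Real.log_le_iff_le_exp (by norm_num)]
      have h9 : (2.7 : ℝ) ^ 3 ≤ Real.exp 1 ^ 3 := by
        have := Real.exp_one_gt_d9
        gcongr
        linarith
      rw [← Real.exp_nat_mul] at h9
      norm_num at h9 ⊢
      linarith
    linarith
  have h3 := Finset.sum_le_sum (s := (Finset.univ : Finset (Fin m))) fun j _ => h2 j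
  have e3 : ∑ j, (1 / 2 * Real.log (1 + ‖(y : ℂ) * I - μ j‖) + 7) =
      1 / 2 * ∑ j, Real.log (1 + ‖(y : ℂ) * I - μ j‖) + m * 7 := by
    rw [Finset.sum_add_distrib, ← Finset.mul_sum, Finset.sum_const, Finset.card_univ,
      Fintype.card_fin, nsmul_eq_mul]
  rw [e3] at h3
  linarith

lemma ell_lo (hN : 1 ≤ N) (hμ : ∀ j, (μ j).re ≤ 1 / 2) (y : ℝ) :
    hc N μ y - 7 * m ≤ ell N μ y 6 := ell_ge hN hμ (by norm_num)

/-- the constant of the profile -/
noncomputable def Kn (m : ℕ) (b : ℝ) (n : ℕ) : ℝ := 1458 * (m * (18 + b)) + 3888 * n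

/-- the profile of the `n`-th derivative -/
theorem prf (h : UL m B N θ μ X L) (hθ : θ ≤ 1) (n : ℕ) (y : ℝ) :
    X (7 / 2 + y * I) ≠ 0 ∧ iteratedDeriv n X (7 / 2 + y * I) ≠ 0 ∧
    (∀ z : ℂ, ‖iteratedDeriv n X (1 / 2 + y * I + z)‖ ≤ ‖iteratedDeriv n X (7 / 2 + y * I)‖ *
      Real.exp (hc N μ y * (max |z.re| 3 - 3) + Kn m (B 1) n * (1 + ‖z‖ ^ 2))) ∧
    ∀ z : ℂ, 3 ≤ z.re → ‖iteratedDeriv n X (7 / 2 + y * I)‖ *
      Real.exp (hc N μ y * (z.re - 3) - Kn m (B 1) n * (1 + ‖z‖ ^ 2)) ≤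
        ‖iteratedDeriv n X (1 / 2 + y * I + z)‖ := by
  have hm : (1 : ℝ) ≤ m := by exact_mod_cast h.hm
  have hB := h.hB 1
  obtain ⟨G, hG⟩ := upn h hθ n y (S := 6) le_rfl
  obtain ⟨e, he⟩ : ∃ e : ℝ, e = ell N μ y 6 := ⟨_, rfl⟩
  obtain ⟨H, hH⟩ : ∃ H : ℝ, H = hc N μ y := ⟨_, rfl⟩
  have hup := ell_up h.hN h.re_le y
  have hlo := ell_lo h.hN h.re_le y
  rw [← he] at hG hup hlo
  rw [← hH] at hup hlo ⊢
  obtain ⟨K, hK⟩ : ∃ K : ℝ, K = 81 * ((m * (18 + B 1) + 16 * n / 6) * 6) := ⟨_, rfl⟩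
  rw [← hK] at hG
  have hn : (0 : ℝ) ≤ n := Nat.cast_nonneg n
  have hmB : (m : ℝ) ≤ m * (18 + B 1) / 18 := by nlinarith
  have hK3 : Kn m (B 1) n = 3 * K := by
    unfold Kn
    rw [hK]
    ring
  have hKm : 486 * 18 * (m : ℝ) ≤ K := by
    rw [hK]
    nlinarith
  obtain ⟨Q, hQ⟩ : ∃ Q : ℝ, Q = ‖iteratedDeriv n X (7 / 2 + y * I)‖ := ⟨_, rfl⟩
  rw [← hQ, hK3]
  have hG0 := hG.hG
  have e72 : (1 / 2 + y * I + (6 : ℝ) * ((1 / 2 : ℝ) : ℂ) : ℂ) = 7 / 2 + y * I := by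
    push_cast
    ring
  have q1 := hG.up ((1 / 2 : ℝ) : ℂ)
  have q2 := hG.lo ((1 / 2 : ℝ) : ℂ) (by rw [ofReal_re])
  try simp only at q1 q2
  rw [e72, ← hQ] at q1 q2
  have en : ‖((1 / 2 : ℝ) : ℂ)‖ ^ 2 = 1 / 4 := by
    rw [Complex.norm_real]
    norm_num
  rw [en, ofReal_re] at q1 q2
  have em : max |(1 / 2 : ℝ)| (1 / 2) = 1 / 2 := by
    rw [abs_of_pos (by norm_num), max_self]
  rw [em] at q1
  have hQ0 : 0 < Q := lt_of_lt_of_le (by positivity) q2
  have hX0 := (h.Xne (s := 7 / 2 + y * I) (by simp; linarith))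
  refine ⟨hX0, ?_, ?_, ?_⟩
  · intro h0
    rw [h0, norm_zero] at hQ
    linarith
  · intro z
    have h1 := hG.up (z / 6)
    try simp only at h1
    have ez : (1 / 2 + y * I + (6 : ℝ) * (z / 6) : ℂ) = 1 / 2 + y * I + z := by
      push_cast
      ring
    rw [ez] at h1
    have e1 : ‖z / 6‖ ^ 2 = ‖z‖ ^ 2 / 36 := by
      rw [norm_div, Complex.norm_ofNat]
      ring
    have e2 : 6 * e * max |(z / 6).re| (1 / 2) = e * max |z.re| 3 := by
      have : (z / 6).re = z.re / 6 := by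
        rw [show (6 : ℂ) = ((6 : ℝ) : ℂ) by norm_num, Complex.div_ofReal_re]
      rw [this, abs_div, abs_of_pos (by norm_num : (0 : ℝ) < 6)]
      rcases le_total |z.re| 3 with h2 | h2
      · rw [max_eq_right h2, max_eq_right (by linarith)]
        ring
      · rw [max_eq_left h2, max_eq_left (by linarith)]
        ring
    rw [e1, e2] at h1
    refine h1.trans ?_
    have h2 : G ≤ Q * Real.exp (-(3 * e) + K * (5 / 4)) := by
      have : G * Real.exp (6 * e * (1 / 2) - K * (1 + 1 / 4)) * Real.exp (-(3 * e) + K * (5 / 4)) ≤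
          Q * Real.exp (-(3 * e) + K * (5 / 4)) := by gcongr
      rw [mul_assoc, ← Real.exp_add] at this
      have e3 : 6 * e * (1 / 2) - K * (1 + 1 / 4) + (-(3 * e) + K * (5 / 4)) = 0 := by ring
      rwa [e3, Real.exp_zero, mul_one] at this
    obtain ⟨M, hM⟩ : ∃ M : ℝ, M = max |z.re| 3 := ⟨_, rfl⟩
    have hM3 : 3 ≤ M := by rw [hM]; exact le_max_right _ _
    have hMz : M - 3 ≤ ‖z‖ := by
      have h3 : M ≤ ‖z‖ + 3 := by
        rw [hM]
        apply max_le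
        · have := Complex.abs_re_le_norm z
          linarith
        · have := norm_nonneg z
          linarith
      linarith
    rw [← hM]
    calc G * Real.exp (e * M + K * (1 + ‖z‖ ^ 2 / 36))
        ≤ Q * Real.exp (-(3 * e) + K * (5 / 4)) * Real.exp (e * M + K * (1 + ‖z‖ ^ 2 / 36)) := by
          gcongr
      _ = Q * Real.exp (-(3 * e) + K * (5 / 4) + (e * M + K * (1 + ‖z‖ ^ 2 / 36))) := by
          rw [mul_assoc, ← Real.exp_add]
      _ ≤ _ := by
          refine mul_le_mul_of_nonneg_left (Real.exp_le_exp.2 ?_) hQ0.le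
          have h4 : e * (M - 3) ≤ (H + 7 * m) * (M - 3) :=
            mul_le_mul_of_nonneg_right hup (by linarith)
          have h5 : 7 * m * (M - 3) ≤ 7 * m * ‖z‖ := mul_le_mul_of_nonneg_left hMz (by positivity)
          have h6 : 2 * ‖z‖ ≤ 1 + ‖z‖ ^ 2 := by nlinarith [sq_nonneg (‖z‖ - 1)]
          have h7 : 7 * m * (2 * ‖z‖) ≤ 7 * m * (1 + ‖z‖ ^ 2) :=
            mul_le_mul_of_nonneg_left h6 (by positivity)
          have h8 : 0 ≤ ‖z‖ ^ 2 := sq_nonneg _
          have h9 : 7 * m * (1 + ‖z‖ ^ 2) ≤ K * (1 + ‖z‖ ^ 2) / 4 := by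
            have h28 : 28 * (m : ℝ) ≤ K := by linarith
            have := mul_le_mul_of_nonneg_right h28 (by positivity : 0 ≤ 1 + ‖z‖ ^ 2)
            linarith
          have hK0 : 0 ≤ K := by linarith
          have h10 : 0 ≤ K * ‖z‖ ^ 2 := by positivity
          have f1 : K * (1 + ‖z‖ ^ 2 / 36) = K + K * ‖z‖ ^ 2 / 36 := by ring
          have f2 : 3 * K * (1 + ‖z‖ ^ 2) = 3 * K + 3 * (K * ‖z‖ ^ 2) := by ring
          have f3 : K * (1 + ‖z‖ ^ 2) / 4 = K / 4 + K * ‖z‖ ^ 2 / 4 := by ring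
          have f4 : e * (M - 3) = e * M - 3 * e := by ring
          have f5 : (H + 7 * m) * (M - 3) = H * (M - 3) + 7 * m * (M - 3) := by ring
          have f6 : 7 * (m : ℝ) * (2 * ‖z‖) = 2 * (7 * m * ‖z‖) := by ring
          linarith
  · intro z hz
    have h1 := hG.lo (z / 6) (by
      rw [show (6 : ℂ) = ((6 : ℝ) : ℂ) by norm_num, Complex.div_ofReal_re]
      linarith)
    try simp only at h1
    have ez : (1 / 2 + y * I + (6 : ℝ) * (z / 6) : ℂ) = 1 / 2 + y * I + z := by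
      push_cast
      ring
    rw [ez] at h1
    have e1 : ‖z / 6‖ ^ 2 = ‖z‖ ^ 2 / 36 := by
      rw [norm_div, Complex.norm_ofNat]
      ring
    have e2 : 6 * e * (z / 6).re = e * z.re := by
      rw [show (6 : ℂ) = ((6 : ℝ) : ℂ) by norm_num, Complex.div_ofReal_re]
      ring
    rw [e1, e2] at h1
    refine le_trans ?_ h1
    have h2 : Q * Real.exp (-(3 * e) - K * (5 / 4)) ≤ G := by
      have : Q * Real.exp (-(3 * e) - K * (5 / 4)) ≤
          G * Real.exp (6 * e * (1 / 2) + K * (1 + 1 / 4)) * Real.exp (-(3 * e) - K * (5 / 4)) := by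
        gcongr
      rw [mul_assoc, ← Real.exp_add] at this
      have e3 : 6 * e * (1 / 2) + K * (1 + 1 / 4) + (-(3 * e) - K * (5 / 4)) = 0 := by ring
      rwa [e3, Real.exp_zero, mul_one] at this
    have hMz : z.re - 3 ≤ ‖z‖ := by
      have := Complex.re_le_norm z
      linarith
    calc Q * Real.exp (H * (z.re - 3) - 3 * K * (1 + ‖z‖ ^ 2))
        ≤ Q * Real.exp (-(3 * e) - K * (5 / 4) + (e * z.re - K * (1 + ‖z‖ ^ 2 / 36))) := by
          refine mul_le_mul_of_nonneg_left (Real.exp_le_exp.2 ?_) hQ0.le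
          have h4 : (H - 7 * m) * (z.re - 3) ≤ e * (z.re - 3) :=
            mul_le_mul_of_nonneg_right hlo (by linarith)
          have h5 : 7 * m * (z.re - 3) ≤ 7 * m * ‖z‖ := mul_le_mul_of_nonneg_left hMz (by positivity)
          have h6 : 2 * ‖z‖ ≤ 1 + ‖z‖ ^ 2 := by nlinarith [sq_nonneg (‖z‖ - 1)]
          have h7 : 7 * m * (2 * ‖z‖) ≤ 7 * m * (1 + ‖z‖ ^ 2) :=
            mul_le_mul_of_nonneg_left h6 (by positivity)
          have h8 : 0 ≤ ‖z‖ ^ 2 := sq_nonneg _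
          have h9 : 7 * m * (1 + ‖z‖ ^ 2) ≤ K * (1 + ‖z‖ ^ 2) / 4 := by
            have h28 : 28 * (m : ℝ) ≤ K := by linarith
            have := mul_le_mul_of_nonneg_right h28 (by positivity : 0 ≤ 1 + ‖z‖ ^ 2)
            linarith
          have hK0 : 0 ≤ K := by linarith
          have h10 : 0 ≤ K * ‖z‖ ^ 2 := by positivity
          have f1 : K * (1 + ‖z‖ ^ 2 / 36) = K + K * ‖z‖ ^ 2 / 36 := by ring
          have f2 : 3 * K * (1 + ‖z‖ ^ 2) = 3 * K + 3 * (K * ‖z‖ ^ 2) := by ring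
          have f3 : K * (1 + ‖z‖ ^ 2) / 4 = K / 4 + K * ‖z‖ ^ 2 / 4 := by ring
          have f4 : e * (z.re - 3) = e * z.re - 3 * e := by ring
          have f5 : (H - 7 * m) * (z.re - 3) = H * (z.re - 3) - 7 * m * (z.re - 3) := by ring
          have f6 : 7 * (m : ℝ) * (2 * ‖z‖) = 2 * (7 * m * ‖z‖) := by ring
          linarith
      _ = Q * Real.exp (-(3 * e) - K * (5 / 4)) * Real.exp (e * z.re - K * (1 + ‖z‖ ^ 2 / 36)) := by
          rw [mul_assoc, ← Real.exp_add]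
      _ ≤ _ := by gcongr

/-- the size of the derivatives on the line `Re s = 7/2` -/
theorem ratio (h : UL m B N θ μ X L) (hθ : θ ≤ 1) (n : ℕ) (y : ℝ) :
    ‖iteratedDeriv n X (7 / 2 + y * I)‖ ≤ ‖X (7 / 2 + y * I)‖ *
      (hc N μ y + m * (31 + B 1) + 3 * n) ^ n := by
  have hm : (1 : ℝ) ≤ m := by exact_mod_cast h.hm
  have hB := h.hB 1
  have hh := hc_nonneg h.hN μ y
  have hup := ell_up h.hN h.re_le y
  have hlo := ell_lo h.hN h.re_le y
  obtain ⟨s, hs⟩ : ∃ s : ℂ, s = 7 / 2 + y * I := ⟨_, rfl⟩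
  have hsre : s.re = 7 / 2 := by rw [hs]; simp
  have h0 := dist_le h hθ (S := 6) (y := y) le_rfl (w := -9) (by norm_num)
  have e0 : (1 / 2 + 2 * (6 : ℝ) + y * I + -9 : ℂ) = s := by
    rw [hs]
    push_cast
    ring
  rw [e0, norm_neg, Complex.norm_ofNat] at h0
  rw [← hs]
  have hlogD : ‖logDeriv X s‖ ≤ hc N μ y + m * (31 + B 1) := by
    have h1 := norm_add_le (logDeriv X s - ell N μ y 6) (ell N μ y 6)
    rw [sub_add_cancel, Complex.norm_real, Real.norm_eq_abs] at h1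
    have h2 : |ell N μ y 6| ≤ hc N μ y + 7 * m := abs_le.2 ⟨by linarith, hup⟩
    have e1 : m * (12 / 6 * 9 + 6 + B 1) = m * (24 + B 1) := by ring
    rw [e1] at h0
    linarith
  have key : ∀ k : ℕ, k ≤ n → ‖iteratedDeriv k X s‖ ≤ ‖X s‖ *
      (hc N μ y + m * (31 + B 1) + 3 * n) ^ k := by
    intro k
    induction k with
    | zero =>
      intro _
      simp
    | succ k ih =>
      intro hk
      have h1 := ih (by omega)
      obtain ⟨-, -, hst⟩ := steps' h hθ k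
      obtain ⟨hne, h2⟩ := hst s (by rw [hsre]; linarith)
      rw [iteratedDeriv_succ]
      have h3 : 4 * (k : ℝ) / (s.re - 1 / 2 - (1 / 2 + θ)) ≤ 3 * n := by
        have hkn : (k : ℝ) + 1 ≤ n := by exact_mod_cast hk
        rw [hsre, div_le_iff₀ (by linarith)]
        nlinarith
      have h4 : ‖deriv (iteratedDeriv k X) s / iteratedDeriv k X s‖ ≤
          hc N μ y + m * (31 + B 1) + 3 * n := by
        have h5 := norm_add_le (deriv (iteratedDeriv k X) s / iteratedDeriv k X s - deriv X s / X s)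
          (deriv X s / X s)
        rw [sub_add_cancel] at h5
        rw [logDeriv_apply] at hlogD
        linarith
      have h5 : ‖deriv (iteratedDeriv k X) s‖ =
          ‖deriv (iteratedDeriv k X) s / iteratedDeriv k X s‖ * ‖iteratedDeriv k X s‖ := by
        rw [← norm_mul, div_mul_cancel₀ _ hne]
      rw [h5, pow_succ]
      have hQ : 0 ≤ hc N μ y + m * (31 + B 1) + 3 * n := by positivity
      calc _ ≤ (hc N μ y + m * (31 + B 1) + 3 * n) * (‖X s‖ *
            (hc N μ y + m * (31 + B 1) + 3 * n) ^ k) := by gcongr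
        _ = _ := by ring
  exact key n le_rfl

end Pool.Agent.TH839.LD
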